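import Pool.Agent.Helper49_HM.NumAsm

/-!
# The shape coordinate in real Levi-Civita coordinates
-/

namespace Pool.Agent.HM

open Complex Set Topology Pool.Agent.H2TM Pool.Agent.HM.H4

noncomputable section

theorem exm_exm' (m : Fin 3 → ℝ) : exm (exm m) = m := by
  funext i; fin_cases i <;> rfl

theorem swm_swm' (m : Fin 3 → ℝ) : swm (swm m) = m := by
  funext i; fin_cases i <;> rfl

theorem zB1_eq (m : Fin 3 → ℝ) (x : Fin 8 → ℝ) :
    zB1 m x = (⟨lcax (cstM (swm (exm m))) x, lcay (cstM (swm (exm m))) x⟩ : ℂ) /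
      ⟨lcbx (cstM (swm (exm m))) x, lcby (cstM (swm (exm m))) x⟩ := by
  rw [← vA_C8, ← vB_C8]
  set A := vA (swm (exm m)) ((C8 x).1 ^ 2) (C8 x).2.1 with hA
  set B := vB (swm (exm m)) ((C8 x).1 ^ 2) (C8 x).2.1 with hB
  have e1 : (zyx m (toJ (C8 x))).1 = -A := by
    show vA (exm m) (-B) (-A + (w1 (swm (swm (exm m))) : ℂ) * B) = -A
    rw [swm_swm']
    unfold vA
    ring
  have e2 : vA m (zyx m (toJ (C8 x))).1 (zyx m (toJ (C8 x))).2.1 = -B := by
    rw [e1]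
    show vA m (-A) (-B - (w1 (exm (exm m)) : ℂ) *
      vA (exm m) (-B) (-A + (w1 (swm (swm (exm m))) : ℂ) * B)) = -B
    rw [swm_swm', exm_exm']
    unfold vA
    ring
  show (zyx m (toJ (C8 x))).1 / vA m (zyx m (toJ (C8 x))).1 (zyx m (toJ (C8 x))).2.1 = A / B
  rw [e2, e1, neg_div_neg_eq]

theorem zB2_eq (m : Fin 3 → ℝ) (x : Fin 8 → ℝ) :
    zB2 m x = (⟨x 0 * x 0 - x 1 * x 1, 2 * (x 0 * x 1)⟩ : ℂ) /
      ⟨lcax (cstM m) x, lcay (cstM m) x⟩ := by
  rw [← vA_C8]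
  show (C8 x).1 ^ 2 / vA m ((C8 x).1 ^ 2) (C8 x).2.1 = _
  congr 1
  show (⟨x 0, x 1⟩ : ℂ) ^ 2 = _
  apply Complex.ext
  · simp [pow_two]
  · simp [pow_two]; ring

/-- real and imaginary part of a quotient in terms of `a conj b` -/
theorem quot_re (a b : ℂ) : (a / b).re = (a.re * b.re + a.im * b.im) / (b.re ^ 2 + b.im ^ 2) := by
  rw [Complex.div_re, Complex.normSq_apply]
  ring

theorem quot_im (a b : ℂ) : (a / b).im = (a.im * b.re - a.re * b.im) / (b.re ^ 2 + b.im ^ 2) := by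
  rw [Complex.div_im, Complex.normSq_apply]
  ring

end

end Pool.Agent.HM
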