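import Pool.Agent.Helper49_HM.LC

/-!
# CoreData from stepwise sign conditions
-/

namespace Pool.Agent.HM

open Complex Set Topology

noncomputable section

/-- meaning of a code -/
def codeP (q : ℕ) (z : ℂ) : Prop :=
  (q = 1 → 0 < z.im) ∧ (q = 2 → z.im < 0) ∧ (q = 3 → z.re < 0) ∧ (q = 4 → 1 < z.re) ∧
    (q = 5 → 0 < z.re ∧ z.re < 1) ∧ (q = 11 → Zone z)

/-- `F` has the given codes on consecutive intervals with the given lengths -/
def TC (F : ℝ → ℂ) : ℝ → List (ℝ × ℕ) → Prop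
  | _, [] => True
  | a, (d, q) :: l => (∀ s ∈ Icc a (a + d), codeP q (F s)) ∧ TC F (a + d) l

/-- total length -/
def dur : List (ℝ × ℕ) → ℝ
  | [] => 0
  | (d, _) :: l => d + dur l

theorem dur_append (l l' : List (ℝ × ℕ)) : dur (l ++ l') = dur l + dur l' := by
  induction l with
  | nil => simp [dur]
  | cons p l ih => rcases p with ⟨d, q⟩; simp only [List.cons_append, dur, ih]; ring

theorem TC_append {F : ℝ → ℂ} {l' : List (ℝ × ℕ)} : ∀ {l : List (ℝ × ℕ)} {a : ℝ},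
    TC F a (l ++ l') → TC F a l ∧ TC F (a + dur l) l' := by
  intro l
  induction l with
  | nil => intro a h; simp only [dur, add_zero]; exact ⟨trivial, h⟩
  | cons p l ih =>
    intro a h
    rcases p with ⟨d, q⟩
    obtain ⟨h1, h2⟩ := h
    obtain ⟨h3, h4⟩ := ih h2
    refine ⟨⟨h1, h3⟩, ?_⟩
    simp only [dur]
    rw [← add_assoc]
    exact h4

theorem TC_append' {F : ℝ → ℂ} {l' : List (ℝ × ℕ)} : ∀ {l : List (ℝ × ℕ)} {a : ℝ},
    TC F a l → TC F (a + dur l) l' → TC F a (l ++ l') := by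
  intro l
  induction l with
  | nil => intro a _ h; simpa only [dur, add_zero, List.nil_append] using h
  | cons p l ih =>
    intro a h h'
    rcases p with ⟨d, q⟩
    obtain ⟨h1, h2⟩ := h
    refine ⟨h1, ih h2 ?_⟩
    simp only [dur] at h'
    rw [← add_assoc] at h'
    exact h'

theorem TC_congr {F G : ℝ → ℂ} : ∀ {l : List (ℝ × ℕ)} {a : ℝ}, (∀ p ∈ l, 0 < p.1) →
    (∀ s ∈ Icc a (a + dur l), F s = G s) → TC F a l → TC G a l := by
  intro l
  induction l with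
  | nil => intro a _ _ _; trivial
  | cons p l ih =>
    intro a hp h h'
    rcases p with ⟨d, q⟩
    obtain ⟨h1, h2⟩ := h'
    have hd : 0 < d := hp (d, q) (List.mem_cons_self ..)
    have hl : 0 ≤ dur l := by
      clear ih h h2 h1
      have : ∀ p ∈ l, 0 < p.1 := fun p hp' => hp p (List.mem_cons_of_mem _ hp')
      clear hp
      induction l with
      | nil => exact le_rfl
      | cons p l ih =>
        rcases p with ⟨e, q⟩
        have := ih fun p hp => this p (List.mem_cons_of_mem _ hp)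
        have h3 := ‹∀ p ∈ (e, q) :: l, 0 < p.1› (e, q) (List.mem_cons_self ..)
        simp only [dur] at *
        linarith
    simp only [dur] at h
    refine ⟨fun s hs => ?_, ih (fun p hp' => hp p (List.mem_cons_of_mem _ hp')) ?_ h2⟩
    · rw [← h s ⟨hs.1, by linarith [hs.2]⟩]; exact h1 s hs
    · intro s hs
      exact h s ⟨by linarith [hs.1], by linarith [hs.2]⟩

theorem dur_nonneg {l : List (ℝ × ℕ)} (h : ∀ p ∈ l, 0 < p.1) : 0 ≤ dur l := by
  induction l with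
  | nil => exact le_rfl
  | cons p l ih =>
    rcases p with ⟨d, q⟩
    have h1 := ih fun p hp => h p (List.mem_cons_of_mem _ hp)
    have h2 : 0 < d := h (d, q) (List.mem_cons_self ..)
    simp only [dur]
    linarith

theorem dur_pos {l : List (ℝ × ℕ)} (h : ∀ p ∈ l, 0 < p.1) (hl : l ≠ []) : 0 < dur l := by
  cases l with
  | nil => exact absurd rfl hl
  | cons p l =>
    rcases p with ⟨d, q⟩
    have h1 := dur_nonneg fun p hp => h p (List.mem_cons_of_mem _ hp)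
    have h2 : 0 < d := h (d, q) (List.mem_cons_self ..)
    simp only [dur]
    linarith

/-- all points of the interval -/
theorem TC_all {F : ℝ → ℂ} {R : ℂ → Prop} : ∀ {l : List (ℝ × ℕ)} {a : ℝ}, l ≠ [] →
    (∀ p ∈ l, ∀ z, codeP p.2 z → R z) → TC F a l → ∀ s ∈ Icc a (a + dur l), R (F s) := by
  intro l
  induction l with
  | nil => intro a h; exact absurd rfl h
  | cons p l ih =>
    intro a _ hp h s hs
    rcases p with ⟨d, q⟩
    obtain ⟨h1, h2⟩ := h
    by_cases hsd : s ≤ a + d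
    · exact hp (d, q) (List.mem_cons_self ..) _ (h1 s ⟨hs.1, hsd⟩)
    · push Not at hsd
      by_cases hl : l = []
      · subst hl
        simp only [dur, add_zero] at hs
        exact absurd hs.2 (not_le.2 hsd)
      · refine ih hl (fun p hp' => hp p (List.mem_cons_of_mem _ hp')) h2 s ⟨hsd.le, ?_⟩
        have := hs.2
        simp only [dur] at this
        linarith

/-- the value at the end of the last interval -/
theorem TC_last {F : ℝ → ℂ} {q : ℕ} : ∀ {l : List (ℝ × ℕ)} {a : ℝ}, (∀ p ∈ l, 0 < p.1) →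
    (l.map Prod.snd).getLast? = some q → TC F a l → codeP q (F (a + dur l)) := by
  intro l
  induction l with
  | nil => intro a _ h; simp at h
  | cons p l ih =>
    intro a hp h h'
    rcases p with ⟨d, q'⟩
    obtain ⟨h1, h2⟩ := h'
    have hd : 0 < d := hp (d, q') (List.mem_cons_self ..)
    cases l with
    | nil =>
      simp only [List.map_cons, List.map_nil, List.getLast?_singleton, Option.some.injEq] at h
      subst h
      simp only [dur, add_zero]
      exact h1 _ ⟨by linarith, le_rfl⟩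
    | cons p' l' =>
      have h3 : (((p' :: l').map Prod.snd)).getLast? = some q := by
        rw [← h]
        simp [List.getLast?_cons]
      have h4 := ih (fun p hp' => hp p (List.mem_cons_of_mem _ hp')) h3 h2
      simp only [dur] at h4 ⊢
      rw [← add_assoc]
      exact h4

/-- segment check: codes `1`, `2`, `o`, the last one is `sg` -/
def segOK (o sg : ℕ) (l : List ℕ) : Bool :=
  l.all (fun q => q == 1 || q == 2 || q == o) && (l.getLast? == some sg)

/-- codes of the slit planes -/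
def opc : Fin 3 → ℕ := ![3, 4, 5]

theorem opn_of_code (l : Fin 3) {q : ℕ} (hq : q = 1 ∨ q = 2 ∨ q = opc l) {z : ℂ}
    (h : codeP q z) : Opn l z := by
  obtain ⟨h1, h2, h3, h4, h5, _⟩ := h
  rcases hq with rfl | rfl | rfl
  · exact Or.inl (h1 rfl).ne'
  · exact Or.inl (h2 rfl).ne
  · fin_cases l
    · exact Or.inr (Or.inl ⟨rfl, h3 rfl⟩)
    · exact Or.inr (Or.inr (Or.inl ⟨rfl, h4 rfl⟩))
    · exact Or.inr (Or.inr (Or.inr ⟨rfl, h5 rfl⟩))

theorem seg_sound {F : ℝ → ℂ} (l : Fin 3) {o sg : ℕ} (ho : o = opc l) {L : List (ℝ × ℕ)} {a : ℝ}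
    (hL : ∀ p ∈ L, 0 < p.1) (hok : segOK o sg (L.map Prod.snd) = true) (h : TC F a L) :
    0 < dur L ∧ codeP sg (F (a + dur L)) ∧ ∀ s ∈ Icc a (a + dur L), Opn l (F s) := by
  simp only [segOK, Bool.and_eq_true, List.all_eq_true, Bool.or_eq_true, beq_iff_eq] at hok
  obtain ⟨h1, h2⟩ := hok
  have hne : L ≠ [] := by
    rintro rfl
    simp at h2
  refine ⟨dur_pos hL hne, TC_last hL h2 h, TC_all hne ?_ h⟩
  intro p hp z hz
  have := h1 p.2 (List.mem_map.2 ⟨p, hp, rfl⟩)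
  subst ho
  exact opn_of_code l (by tauto) hz

/-- the check of the whole word, input: eight lists of codes -/
def coreOK (l0 l1 l2 l3 l4 l5 l6 l7 : List ℕ) : Bool :=
  segOK 5 1 l0 && segOK 4 2 l1 && segOK 3 1 l2 && segOK 5 2 l3 && segOK 5 1 l4 && segOK 3 2 l5 &&
    segOK 4 1 l6 && l7.all (fun q => q == 11) && !l7.isEmpty

theorem core_sound {F : ℝ → ℂ} {L0 L1 L2 L3 L4 L5 L6 L7 : List (ℝ × ℕ)}
    (hpos : ∀ p ∈ L0 ++ (L1 ++ (L2 ++ (L3 ++ (L4 ++ (L5 ++ (L6 ++ L7)))))), 0 < p.1)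
    (hok : coreOK (L0.map Prod.snd) (L1.map Prod.snd) (L2.map Prod.snd) (L3.map Prod.snd)
      (L4.map Prod.snd) (L5.map Prod.snd) (L6.map Prod.snd) (L7.map Prod.snd) = true)
    (h : TC F 0 (L0 ++ (L1 ++ (L2 ++ (L3 ++ (L4 ++ (L5 ++ (L6 ++ L7)))))))) {T : ℝ}
    (hT : T = dur (L0 ++ (L1 ++ (L2 ++ (L3 ++ (L4 ++ (L5 ++ (L6 ++ L7)))))))) :
    CoreData fun τ => F (T * τ) := by
  simp only [coreOK, Bool.and_eq_true] at hok
  obtain ⟨⟨⟨⟨⟨⟨⟨⟨k0, k1'⟩, k2'⟩, k3⟩, k4⟩, k5⟩, k6⟩, k7⟩, k8⟩ := hok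
  simp only [List.mem_append] at hpos
  have p0 : ∀ p ∈ L0, 0 < p.1 := fun p hp => hpos p (by tauto)
  have p1 : ∀ p ∈ L1, 0 < p.1 := fun p hp => hpos p (by tauto)
  have p2 : ∀ p ∈ L2, 0 < p.1 := fun p hp => hpos p (by tauto)
  have p3 : ∀ p ∈ L3, 0 < p.1 := fun p hp => hpos p (by tauto)
  have p4 : ∀ p ∈ L4, 0 < p.1 := fun p hp => hpos p (by tauto)
  have p5 : ∀ p ∈ L5, 0 < p.1 := fun p hp => hpos p (by tauto)
  have p6 : ∀ p ∈ L6, 0 < p.1 := fun p hp => hpos p (by tauto)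
  have p7 : ∀ p ∈ L7, 0 < p.1 := fun p hp => hpos p (by tauto)
  obtain ⟨t0, h⟩ := TC_append h
  obtain ⟨t1, h⟩ := TC_append h
  obtain ⟨t2, h⟩ := TC_append h
  obtain ⟨t3, h⟩ := TC_append h
  obtain ⟨t4, h⟩ := TC_append h
  obtain ⟨t5, h⟩ := TC_append h
  obtain ⟨t6, t7⟩ := TC_append h
  simp only [dur_append] at hT
  obtain ⟨d0, s0, o0⟩ := seg_sound 2 rfl p0 k0 t0
  obtain ⟨d1, s1, o1⟩ := seg_sound 1 rfl p1 k1' t1
  obtain ⟨d2, s2, o2⟩ := seg_sound 0 rfl p2 k2' t2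
  obtain ⟨d3, s3, o3⟩ := seg_sound 2 rfl p3 k3 t3
  obtain ⟨d4, s4, o4⟩ := seg_sound 2 rfl p4 k4 t4
  obtain ⟨d5, s5, o5⟩ := seg_sound 0 rfl p5 k5 t5
  obtain ⟨d6, s6, o6⟩ := seg_sound 1 rfl p6 k6 t6
  have hne7 : L7 ≠ [] := by
    rintro rfl
    simp at k8
  have d7 := dur_pos p7 hne7
  have o7 : ∀ s ∈ Icc (0 + dur L0 + dur L1 + dur L2 + dur L3 + dur L4 + dur L5 + dur L6)
      (0 + dur L0 + dur L1 + dur L2 + dur L3 + dur L4 + dur L5 + dur L6 + dur L7), Zone (F s) := by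
    refine TC_all hne7 ?_ t7
    intro p hp z hz
    have h1 := List.all_eq_true.1 k7 p.2 (List.mem_map.2 ⟨p, hp, rfl⟩)
    exact hz.2.2.2.2.2 (by simpa using h1)
  generalize dur L0 = e0 at *
  generalize dur L1 = e1 at *
  generalize dur L2 = e2 at *
  generalize dur L3 = e3 at *
  generalize dur L4 = e4 at *
  generalize dur L5 = e5 at *
  generalize dur L6 = e6 at *
  generalize dur L7 = e7 at *
  have hT0 : 0 < T := by linarith
  have sc : ∀ u, T * (u / T) = u := fun u => by field_simp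
  have sc2 : ∀ {a b τ : ℝ}, τ ∈ Icc (a / T) (b / T) → T * τ ∈ Icc a b := by
    intro a b τ hτ
    have h1 := hτ.1
    have h2 := hτ.2
    rw [div_le_iff₀ hT0] at h1
    rw [le_div_iff₀ hT0] at h2
    exact ⟨by linarith, by linarith⟩
  refine ⟨![(0 + e0) / T, (0 + e0 + e1) / T, (0 + e0 + e1 + e2) / T, (0 + e0 + e1 + e2 + e3) / T,
    (0 + e0 + e1 + e2 + e3 + e4) / T, (0 + e0 + e1 + e2 + e3 + e4 + e5) / T,
    (0 + e0 + e1 + e2 + e3 + e4 + e5 + e6) / T], ?_, ?_, ?_, ?_, ?_, ?_, ?_, ?_, ?_, ?_, ?_, ?_,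
    ?_, ?_, ?_, ?_, ?_, ?_⟩
  · show 0 < (0 + e0) / T
    apply div_pos _ hT0; linarith
  · rw [Fin.strictMono_iff_lt_succ]
    intro i
    fin_cases i
    · show (0 + e0) / T < (0 + e0 + e1) / T
      exact div_lt_div_of_pos_right (by linarith) hT0
    · show (0 + e0 + e1) / T < (0 + e0 + e1 + e2) / T
      exact div_lt_div_of_pos_right (by linarith) hT0
    · show (0 + e0 + e1 + e2) / T < (0 + e0 + e1 + e2 + e3) / T
      exact div_lt_div_of_pos_right (by linarith) hT0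
    · show (0 + e0 + e1 + e2 + e3) / T < (0 + e0 + e1 + e2 + e3 + e4) / T
      exact div_lt_div_of_pos_right (by linarith) hT0
    · show (0 + e0 + e1 + e2 + e3 + e4) / T < (0 + e0 + e1 + e2 + e3 + e4 + e5) / T
      exact div_lt_div_of_pos_right (by linarith) hT0
    · show (0 + e0 + e1 + e2 + e3 + e4 + e5) / T < (0 + e0 + e1 + e2 + e3 + e4 + e5 + e6) / T
      exact div_lt_div_of_pos_right (by linarith) hT0
  · show (0 + e0 + e1 + e2 + e3 + e4 + e5 + e6) / T < 1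
    rw [div_lt_one hT0]; linarith
  · show 0 < (F (T * ((0 + e0) / T))).im
    rw [sc]; exact s0.1 rfl
  · show (F (T * ((0 + e0 + e1) / T))).im < 0
    rw [sc]; exact s1.2.1 rfl
  · show 0 < (F (T * ((0 + e0 + e1 + e2) / T))).im
    rw [sc]; exact s2.1 rfl
  · show (F (T * ((0 + e0 + e1 + e2 + e3) / T))).im < 0
    rw [sc]; exact s3.2.1 rfl
  · show 0 < (F (T * ((0 + e0 + e1 + e2 + e3 + e4) / T))).im
    rw [sc]; exact s4.1 rfl
  · show (F (T * ((0 + e0 + e1 + e2 + e3 + e4 + e5) / T))).im < 0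
    rw [sc]; exact s5.2.1 rfl
  · show 0 < (F (T * ((0 + e0 + e1 + e2 + e3 + e4 + e5 + e6) / T))).im
    rw [sc]; exact s6.1 rfl
  · intro τ hτ
    apply o0
    apply sc2
    rw [zero_div]
    exact hτ
  · intro τ hτ; exact o1 _ (sc2 hτ)
  · intro τ hτ; exact o2 _ (sc2 hτ)
  · intro τ hτ; exact o3 _ (sc2 hτ)
  · intro τ hτ; exact o4 _ (sc2 hτ)
  · intro τ hτ; exact o5 _ (sc2 hτ)
  · intro τ hτ; exact o6 _ (sc2 hτ)
  · intro τ hτ
    apply o7
    apply sc2
    refine ⟨hτ.1, ?_⟩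
    have : (0 + e0 + e1 + e2 + e3 + e4 + e5 + e6 + e7) / T = 1 := by
      rw [div_eq_one_iff_eq hT0.ne']; linarith
    rw [this]
    exact hτ.2

/-- two pieces -/
theorem core_cat {f₁ f₂ : ℝ → ℂ} {M₁ M₂ : List (ℝ × ℕ)} {L0 L1 L2 L3 L4 L5 L6 L7 : List (ℝ × ℕ)}
    (hM : M₁ ++ M₂ = L0 ++ (L1 ++ (L2 ++ (L3 ++ (L4 ++ (L5 ++ (L6 ++ L7)))))))
    (hpos : ∀ p ∈ M₁ ++ M₂, 0 < p.1)
    (hok : coreOK (L0.map Prod.snd) (L1.map Prod.snd) (L2.map Prod.snd) (L3.map Prod.snd)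
      (L4.map Prod.snd) (L5.map Prod.snd) (L6.map Prod.snd) (L7.map Prod.snd) = true)
    (h₁ : TC f₁ 0 M₁) (h₂ : TC f₂ 0 M₂) (hjoin : f₁ (dur M₁) = f₂ 0) :
    CoreData (catP (dur M₁) (dur M₂) f₁ f₂) := by
  set F : ℝ → ℂ := fun s => if s ≤ dur M₁ then f₁ s else f₂ (s - dur M₁) with hF
  have q1 : ∀ p ∈ M₁, 0 < p.1 := fun p hp => hpos p (List.mem_append_left _ hp)
  have q2 : ∀ p ∈ M₂, 0 < p.1 := fun p hp => hpos p (List.mem_append_right _ hp)
  have hF1 : TC F 0 M₁ := by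
    refine TC_congr q1 ?_ h₁
    intro s hs
    rw [zero_add] at hs
    show f₁ s = if s ≤ dur M₁ then f₁ s else f₂ (s - dur M₁)
    rw [if_pos hs.2]
  have shift : ∀ (l : List (ℝ × ℕ)) (a c : ℝ), TC f₂ a l → TC (fun s => f₂ (s - c)) (a + c) l := by
    intro l
    induction l with
    | nil => intro a c _; trivial
    | cons p l ih =>
      intro a c h
      rcases p with ⟨d, q⟩
      refine ⟨fun s hs => h.1 (s - c) ⟨by linarith [hs.1], by linarith [hs.2]⟩, ?_⟩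
      have := ih (a + d) c h.2
      rwa [show a + d + c = a + c + d by ring] at this
  have hF2 : TC F (0 + dur M₁) M₂ := by
    refine TC_congr q2 ?_ (shift M₂ 0 (dur M₁) h₂)
    intro s hs
    show f₂ (s - dur M₁) = if s ≤ dur M₁ then f₁ s else f₂ (s - dur M₁)
    split_ifs with h
    · have : s = dur M₁ := le_antisymm h (by linarith [hs.1])
      rw [this, hjoin, sub_self]
    · rfl
  have hFc := TC_append' hF1 hF2
  rw [hM] at hFc hpos
  have hT : dur M₁ + dur M₂ = dur (L0 ++ (L1 ++ (L2 ++ (L3 ++ (L4 ++ (L5 ++ (L6 ++ L7))))))) := by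
    rw [← hM, dur_append]
  exact core_sound hpos hok hFc hT

end

end Pool.Agent.HM
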