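import Pool.Agent.Helper49_HM.LArc
import Pool.Agent.Helper49_HM.Core
import Pool.Agent.Helper4_HM.StmtZ

/-!
# Numerical glue: from certificates to `NumAStmt`, `NumBStmt`
-/

namespace Pool.Agent.HM

open Complex Set Topology Pool.Agent.H2TM Pool.Agent.HM.H4

noncomputable section

/-- parameters of the arithmetic -/
structure Par where
  P : ℕ
  w : ℕ
  Qs : ℕ
  D : ℕ
  J : List (List ℤ) → (Fin 4 → ℝ) → Fin 8 → ℝ
  hw : 1 ≤ w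
  hQ : Qs ≤ w

/-- certificates with regions -/
abbrev CL := List (Cert × ((Fin 8 → ℝ) → Prop))

/-- a piece of the orbit, masses `m` -/
structure PieceOK (p : Par) (m : Fin 3 → ℝ) (cs : CL) (C C' : List (List ℤ)) (s s' : ZS) :
    Prop where
  ne : cs ≠ []
  pos : ∀ c ∈ cs, 0 < c.1.h
  step : ∀ c ∈ cs, StepP (lcF (cstM m)) p.P p.J c.1 c.2
  run : zrun p.w p.Qs p.D (cs.map Prod.fst) C s = some (C', s')
  reg : ∀ c ∈ cs, ∀ x, c.2 x → lcOk (cstM m) x ∧ NoColl x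

/-- the state `X` is in the enclosure `(C, s)` at the parameter `ξ` -/
def InE (p : Par) (C : List (List ℤ)) (s : ZS) (ξ : Fin 4 → ℝ) (X : JS) : Prop :=
  InZ p.w p.P p.D s (fun i => R8 X i - p.J C ξ i)

/-- duration -/
def tot (p : Par) (cs : CL) : ℝ := (ztime (cs.map Prod.fst) : ℝ) / 2 ^ p.P

theorem track_all {P : ℕ} {x : ℝ → Fin 8 → ℝ} {R : (Fin 8 → ℝ) → Prop} : ∀ {cs : CL} {a : ℕ},
    cs ≠ [] → (∀ c ∈ cs, ∀ y, c.2 y → R y) → Track P x a cs →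
    ∀ s ∈ Icc ((a : ℝ) / 2 ^ P) (((a + ztime (cs.map Prod.fst) : ℕ) : ℝ) / 2 ^ P), R (x s) := by
  intro cs
  induction cs with
  | nil => intro a h; exact absurd rfl h
  | cons c cs ih =>
    intro a _ hR h s hs
    rcases c with ⟨c, Q⟩
    obtain ⟨h1, h2⟩ := h
    by_cases hsd : s ≤ ((a + 2 * c.h : ℕ) : ℝ) / 2 ^ P
    · exact hR (c, Q) (List.mem_cons_self ..) _ (h1 s ⟨hs.1, hsd⟩)
    · push Not at hsd
      by_cases hl : cs = []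
      · subst hl
        refine absurd hs.2 (not_le.2 ?_)
        simpa [ztime] using hsd
      · refine ih hl (fun c hc => hR c (List.mem_cons_of_mem _ hc)) h2 s ⟨hsd.le, ?_⟩
        have := hs.2
        simp only [List.map_cons, ztime] at this
        rw [← add_assoc] at this
        exact this

theorem box_abs {ξ : Fin 4 → ℝ} (h : ξ ∈ box4) : ∀ i, |ξ i| ≤ 1 := fun i =>
  abs_le.2 ⟨h.1 i, h.2 i⟩

theorem tot_pos {p : Par} {cs : CL} (hne : cs ≠ []) (hpos : ∀ c ∈ cs, 0 < c.1.h) :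
    0 < tot p cs := by
  apply div_pos _ (by positivity)
  cases cs with
  | nil => exact absurd rfl hne
  | cons c cs =>
    have := hpos c (List.mem_cons_self ..)
    simp only [List.map_cons, ztime]
    have h2 : 0 < 2 * c.1.h + ztime (cs.map Prod.fst) := by omega
    exact_mod_cast h2

/-- one piece -/
theorem piece (hZ : ZchStmt) (hCD : ContDepStmt) {p : Par} {m : Fin 3 → ℝ} {cs : CL}
    {C C' : List (List ℤ)} {s s' : ZS} (h : PieceOK p m cs C C' s s') (X0 : (Fin 4 → ℝ) → JS)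
    (hX0 : ContinuousOn X0 box4) (hin : ∀ ξ ∈ box4, InE p C s ξ (X0 ξ)) :
    ∃ x, LArc m (tot p cs) x ∧ ∀ ξ ∈ box4, x ξ 0 = X0 ξ ∧
      Track p.P (fun s => R8 (x ξ s)) 0 cs ∧ InE p C' s' ξ (x ξ (tot p cs)) := by
  obtain ⟨x, hx, hx2⟩ := larc hCD m (tot p cs) (tot_pos h.ne h.pos) X0 hX0
    (fun ξ y => Track p.P y 0 cs ∧
      InZ p.w p.P p.D s' (fun i => y (tot p cs) i - p.J C' ξ i)) (by
    intro ξ hξ
    obtain ⟨y, hy0, hyd, hyt, hye⟩ := hZ (lcF (cstM m)) p.P p.J p.w p.Qs p.D cs C C' s s' p.hw p.hQ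
      h.pos h.step h.run ξ (box_abs hξ) (R8 (X0 ξ)) (hin ξ hξ)
    refine ⟨y, hy0, fun t ht => ?_, hyt, hye⟩
    have hreg := track_all (R := fun y => lcOk (cstM m) y ∧ NoColl y) h.ne h.reg hyt t (by
      rw [Nat.zero_add]
      simpa [tot] using ht)
    exact ⟨hyd t ht, hreg.1, hreg.2⟩)
  exact ⟨x, hx, fun ξ hξ => ⟨(hx2 ξ hξ).1, (hx2 ξ hξ).2.1, (hx2 ξ hξ).2.2⟩⟩

/-- the end inequalities at one parameter -/
structure EndAt (u s : ℝ → ℝ → ℝ) (L0 g0 : ℝ) (m : Fin 3 → ℝ) (ξ : Fin 4 → ℝ) (Y : JS) : Prop where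
  hR : 24 ≤ ‖Y.2.1‖ ∧ ‖Y.2.1‖ ≤ 24.8
  hX : ‖Y.1‖ ≤ 2
  hS : 0.485 ≤ SS Y ∧ SS Y ≤ 0.505
  hu : |u (LL Y) (gg m Y) - u L0 g0 - kapS * ξ 1| ≤ epU
  hs : |s (LL Y) (gg m Y) - s L0 g0| ≤ epS
  hE : |EO m Y - kapE * ξ 3| ≤ epE

theorem ends_of {u s : ℝ → ℝ → ℝ} {L0 g0 : ℝ} {m : Fin 3 → ℝ} {Y : (Fin 4 → ℝ) → JS}
    (h : ∀ ξ ∈ box4, EndAt u s L0 g0 m ξ (Y ξ)) : Ends u s L0 g0 m Y :=
  ⟨fun ξ hξ => (h ξ hξ).hR, fun ξ hξ => (h ξ hξ).hX, fun ξ hξ => (h ξ hξ).hS,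
    fun ξ hξ => (h ξ hξ).hu, fun ξ hξ => (h ξ hξ).hs, fun ξ hξ => (h ξ hξ).hE⟩

theorem larc_end_free {m : Fin 3 → ℝ} {S : ℝ} {x : (Fin 4 → ℝ) → ℝ → JS} (h : LArc m S x)
    {ξ : Fin 4 → ℝ} (hξ : ξ ∈ box4) : LFree m (x ξ S) :=
  h.free ξ hξ S ⟨h.pos.le, le_rfl⟩

/-- data of the numerics for passage A -/
structure DataA (p : Par) (m : Fin 3 → ℝ) (cs : CL) (C C' : List (List ℤ)) (s s' : ZS)
    (X0 : (Fin 4 → ℝ) → JS) : Prop where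
  ok : PieceOK p m cs C C' s s'
  cont : ContinuousOn X0 box4
  init : ∀ ξ ∈ box4, toJ (X0 ξ) = initA m ξ
  enc : ∀ ξ ∈ box4, InE p C s ξ (X0 ξ)
  out : ∀ ξ ∈ box4, ∀ X, LFree m X → InE p C' s' ξ X → EndAt uAB sAB LA gA m ξ (toJ X)

theorem numA_of (hZ : ZchStmt) (hCD : ContDepStmt) (ε : ℝ) (hε : 0 < ε)
    (H : ∀ m, Near1 ε m → ∃ p cs C C' s s' X0, DataA p m cs C C' s s' X0) : NumAStmt := by
  refine ⟨ε, hε, fun m hm => ?_⟩
  obtain ⟨p, cs, C, C', s, s', X0, h⟩ := H m hm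
  obtain ⟨x, hx, hx2⟩ := piece hZ hCD h.ok X0 h.cont h.enc
  refine ⟨tot p cs, x, hx, fun ξ hξ => ?_, ends_of fun ξ hξ => ?_⟩
  · rw [(hx2 ξ hξ).1]; exact h.init ξ hξ
  · exact h.out ξ hξ _ (larc_end_free hx hξ) (hx2 ξ hξ).2.2

/-- durations and codes of the steps of a piece -/
def dc (P : ℕ) (cs : List Cert) (q : List ℕ) : List (ℝ × ℕ) :=
  (cs.map fun c => ((2 * c.h : ℕ) : ℝ) / 2 ^ P).zip q

/-- the codes of the steps hold for `g` on the regions -/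
def Codes (g : (Fin 8 → ℝ) → ℂ) (cs : CL) (q : List ℕ) : Prop :=
  List.Forall₂ (fun c q => ∀ x, c.2 x → codeP q (g x)) cs q

theorem dc_pos {P : ℕ} : ∀ {cs : CL} {q : List ℕ}, (∀ c ∈ cs, 0 < c.1.h) →
    ∀ e ∈ dc P (cs.map Prod.fst) q, 0 < e.1 := by
  intro cs q h e he
  unfold dc at he
  have h1 := List.of_mem_zip (show (e.1, e.2) ∈ _ from he)
  obtain ⟨c, hc, hce⟩ := List.mem_map.1 h1.1
  obtain ⟨c', hc', rfl⟩ := List.mem_map.1 hc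
  rw [← hce]
  have := h c' hc'
  apply div_pos _ (by positivity)
  have h2 : 0 < 2 * c'.1.h := by omega
  exact_mod_cast h2

theorem dc_dur {P : ℕ} {g : (Fin 8 → ℝ) → ℂ} : ∀ {cs : CL} {q : List ℕ}, Codes g cs q →
    dur (dc P (cs.map Prod.fst) q) = (ztime (cs.map Prod.fst) : ℝ) / 2 ^ P := by
  intro cs q h
  induction h with
  | nil => simp [dc, dur, ztime]
  | @cons c q cs qs h1 h2 ih =>
    simp only [dc, List.map_cons, List.zip_cons_cons, dur, ztime] at ih ⊢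
    rw [ih]
    push_cast
    ring

theorem tc_of_track {P : ℕ} {x : ℝ → Fin 8 → ℝ} {g : (Fin 8 → ℝ) → ℂ} : ∀ {cs : CL}
    {q : List ℕ} {a : ℕ}, Codes g cs q → Track P x a cs →
    TC (fun s => g (x s)) ((a : ℝ) / 2 ^ P) (dc P (cs.map Prod.fst) q) := by
  intro cs
  induction cs with
  | nil => intro q a h _; cases h; trivial
  | cons c cs ih =>
    intro q a h ht
    cases h with
    | cons h1 h2 =>
      rcases c with ⟨c, Q⟩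
      obtain ⟨t1, t2⟩ := ht
      have e : (a : ℝ) / 2 ^ P + ((2 * c.h : ℕ) : ℝ) / 2 ^ P = ((a + 2 * c.h : ℕ) : ℝ) / 2 ^ P := by
        push_cast; ring
      refine ⟨fun s hs => h1 _ (t1 s ?_), ?_⟩
      · rw [e] at hs; exact hs
      · have := ih h2 t2
        simp only [dc, List.map_cons, List.zip_cons_cons] at this ⊢
        rw [e]
        exact this

/-- shape coordinate in the first piece of B: `m` = masses of (x,z;y), state with labels (z,y;x) -/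
def zB1 (m : Fin 3 → ℝ) (x : Fin 8 → ℝ) : ℂ := zc m (zyx m (toJ (C8 x)))
/-- shape coordinate in the second piece of B -/
def zB2 (m : Fin 3 → ℝ) (x : Fin 8 → ℝ) : ℂ := zc m (toJ (C8 x))

/-- data of the numerics for passage B -/
structure DataB (p : Par) (m : Fin 3 → ℝ) (cs₁ cs₂ : CL) (C₁ C₁' C₂ C₂' : List (List ℤ))
    (s₁ s₁' s₂ s₂' : ZS) (X0 : (Fin 4 → ℝ) → JS) (Sw : JS → JS) (q₁ q₂ : List ℕ)
    (l0 l1 l2 l3 l4 l5 l6 l7 : List ℕ) : Prop where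
  ok₁ : PieceOK p (swm (exm m)) cs₁ C₁ C₁' s₁ s₁'
  ok₂ : PieceOK p m cs₂ C₂ C₂' s₂ s₂'
  cont : ContinuousOn X0 box4
  init : ∀ ξ ∈ box4, toJ (X0 ξ) = sw (exm m) (initB0 (exm m) ξ)
  enc : ∀ ξ ∈ box4, InE p C₁ s₁ ξ (X0 ξ)
  swc : ContinuousOn Sw {X | ∃ ξ ∈ box4, LFree (swm (exm m)) X ∧ InE p C₁' s₁' ξ X}
  swe : ∀ ξ ∈ box4, ∀ X, LFree (swm (exm m)) X → InE p C₁' s₁' ξ X →
    toJ (Sw X) = zyx m (toJ X) ∧ InE p C₂ s₂ ξ (Sw X)
  out : ∀ ξ ∈ box4, ∀ X, LFree m X → InE p C₂' s₂' ξ X → EndAt uBA sBA LB gB m ξ (toJ X)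
  code₁ : Codes (zB1 m) cs₁ q₁
  code₂ : Codes (zB2 m) cs₂ q₂
  cat : q₁ ++ q₂ = l0 ++ (l1 ++ (l2 ++ (l3 ++ (l4 ++ (l5 ++ (l6 ++ l7))))))
  core : coreOK l0 l1 l2 l3 l4 l5 l6 l7 = true

theorem zip_map_snd {α β : Type} : ∀ (l : List α) (q : List β), l.length = q.length →
    (l.zip q).map Prod.snd = q := by
  intro l
  induction l with
  | nil => intro q h; cases q with
    | nil => rfl
    | cons a q => simp at h
  | cons a l ih => intro q h; cases q with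
    | nil => simp at h
    | cons b q => simp [ih q (by simpa using h)]

theorem split_snd : ∀ (M : List (ℝ × ℕ)) (a b : List ℕ), M.map Prod.snd = a ++ b →
    ∃ A B, M = A ++ B ∧ A.map Prod.snd = a ∧ B.map Prod.snd = b := by
  intro M a b h
  exact ⟨M.take a.length, M.drop a.length, (List.take_append_drop _ _).symm,
    by rw [List.map_take, h, List.take_left'] <;> rfl,
    by rw [List.map_drop, h, List.drop_left'] <;> rfl⟩

theorem numB_of (hZ : ZchStmt) (hCD : ContDepStmt) (ε : ℝ) (hε : 0 < ε)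
    (H : ∀ m, Near1 ε m → ∃ p cs₁ cs₂ C₁ C₁' C₂ C₂' s₁ s₁' s₂ s₂' X0 Sw q₁ q₂ l0 l1 l2 l3 l4 l5 l6
      l7, DataB p m cs₁ cs₂ C₁ C₁' C₂ C₂' s₁ s₁' s₂ s₂' X0 Sw q₁ q₂ l0 l1 l2 l3 l4 l5 l6 l7) :
    NumBStmt := by
  refine ⟨ε, hε, fun m hm => ?_⟩
  obtain ⟨p, cs₁, cs₂, C₁, C₁', C₂, C₂', s₁, s₁', s₂, s₂', X0, Sw, q₁, q₂, l0, l1, l2, l3, l4, l5,
    l6, l7, h⟩ := H m hm
  obtain ⟨x₁, hx₁, hx₁'⟩ := piece hZ hCD h.ok₁ X0 h.cont h.enc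
  have hend : ContinuousOn (fun ξ => x₁ ξ (tot p cs₁)) box4 := by
    have h1 : ContinuousOn (fun ξ : Fin 4 → ℝ => (ξ, tot p cs₁)) box4 := by fun_prop
    exact hx₁.cont.comp h1 fun ξ hξ => ⟨hξ, hx₁.pos.le, le_rfl⟩
  have hmem : ∀ ξ ∈ box4, LFree (swm (exm m)) (x₁ ξ (tot p cs₁)) ∧
      InE p C₁' s₁' ξ (x₁ ξ (tot p cs₁)) := fun ξ hξ =>
    ⟨larc_end_free hx₁ hξ, (hx₁' ξ hξ).2.2⟩
  have hsw : ContinuousOn (fun ξ => Sw (x₁ ξ (tot p cs₁))) box4 :=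
    h.swc.comp hend fun ξ hξ => ⟨ξ, hξ, hmem ξ hξ⟩
  obtain ⟨x₂, hx₂, hx₂'⟩ := piece hZ hCD h.ok₂ (fun ξ => Sw (x₁ ξ (tot p cs₁))) hsw
    fun ξ hξ => (h.swe ξ hξ _ (hmem ξ hξ).1 (hmem ξ hξ).2).2
  have h0 : (0 : Fin 4 → ℝ) ∈ box4 := ⟨fun i => by simp, fun i => by simp⟩
  refine ⟨tot p cs₁, tot p cs₂, x₁, x₂, hx₁, hx₂, fun ξ hξ => ?_, fun ξ hξ => ?_,
    ends_of fun ξ hξ => ?_, ?_⟩
  · rw [(hx₁' ξ hξ).1]; exact h.init ξ hξ
  · rw [(hx₂' ξ hξ).1]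
    exact (h.swe ξ hξ _ (hmem ξ hξ).1 (hmem ξ hξ).2).1
  · exact h.out ξ hξ _ (larc_end_free hx₂ hξ) (hx₂' ξ hξ).2.2
  · have e₁ := dc_dur (P := p.P) h.code₁
    have e₂ := dc_dur (P := p.P) h.code₂
    have len₁ : ((cs₁.map Prod.fst).map fun c => ((2 * c.h : ℕ) : ℝ) / 2 ^ p.P).length =
        q₁.length := by simp [h.code₁.length_eq]
    have len₂ : ((cs₂.map Prod.fst).map fun c => ((2 * c.h : ℕ) : ℝ) / 2 ^ p.P).length =
        q₂.length := by simp [h.code₂.length_eq]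
    have hM : (dc p.P (cs₁.map Prod.fst) q₁ ++ dc p.P (cs₂.map Prod.fst) q₂).map Prod.snd =
        l0 ++ (l1 ++ (l2 ++ (l3 ++ (l4 ++ (l5 ++ (l6 ++ l7)))))) := by
      rw [List.map_append, dc, dc, zip_map_snd _ _ len₁, zip_map_snd _ _ len₂]
      exact h.cat
    obtain ⟨L0, R0, a0, b0, c0⟩ := split_snd _ _ _ hM
    obtain ⟨L1, R1, a1, b1, c1⟩ := split_snd _ _ _ c0
    obtain ⟨L2, R2, a2, b2, c2⟩ := split_snd _ _ _ c1
    obtain ⟨L3, R3, a3, b3, c3⟩ := split_snd _ _ _ c2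
    obtain ⟨L4, R4, a4, b4, c4⟩ := split_snd _ _ _ c3
    obtain ⟨L5, R5, a5, b5, c5⟩ := split_snd _ _ _ c4
    obtain ⟨L6, L7, a6, b6, b7⟩ := split_snd _ _ _ c5
    subst a6 a5 a4 a3 a2 a1
    have t₁ := tc_of_track h.code₁ (hx₁' 0 h0).2.1
    have t₂ := tc_of_track h.code₂ (hx₂' 0 h0).2.1
    simp only [Nat.cast_zero, zero_div] at t₁ t₂
    have hcat := core_cat (f₁ := fun s => zB1 m (R8 (x₁ 0 s))) (f₂ := fun s => zB2 m (R8 (x₂ 0 s)))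
      a0 (by
        intro e he
        rcases List.mem_append.1 he with he | he
        · exact dc_pos h.ok₁.pos e he
        · exact dc_pos h.ok₂.pos e he)
      (by rw [b0, b1, b2, b3, b4, b5, b6, b7]; exact h.core) t₁ t₂ (by
        rw [e₁]
        show zc m (zyx m (toJ (C8 (R8 (x₁ 0 (tot p cs₁)))))) = zc m (toJ (C8 (R8 (x₂ 0 0))))
        rw [C8_R8, C8_R8, (hx₂' 0 h0).1, (h.swe 0 h0 _ (hmem 0 h0).1 (hmem 0 h0).2).1])
    rw [e₁, e₂] at hcat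
    exact hcat

end

end Pool.Agent.HM
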