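import Pool.Agent.Helper49_HM.LC

/-!
# Outcome in Levi-Civita coordinates: statement
-/

namespace Pool.Agent.HM

open Complex Set Topology

noncomputable section

/-- a positive multiple of `lrl * conj outm * exp (-I gref)` up to a factor within `1e-9` of `1`, in
Levi-Civita coordinates; `cos 4.614 = -0.098230316560`, `sin 4.614 = -0.995163707592` -/
def Wout (m : Fin 3 → ℝ) (X : JS) : ℂ :=
  -(X.1 * (X.1 + 4 * I * (cr X.1 X.2.2.1 : ℂ) * X.2.2.1 / ((m 0 + m 1 : ℝ) : ℂ))) *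
    (starRingEnd ℂ)
      (X.2.1 + I * (cr X.2.1 X.2.2.2 : ℂ) * X.2.2.2 * (‖X.2.1‖ : ℂ) / (mT m : ℂ)) *
    (⟨-0.098230316560, 0.995163707592⟩ : ℂ)

/-- OUT: the elements from the Levi-Civita state -/
def OutStmt : Prop := ∀ m, (∀ i, 0 < m i) → ∀ X : JS, X.1 ≠ 0 → X.2.1 ≠ 0 →
  0 < (Wout m X).re → |(Wout m X).im| ≤ 0.006 * (Wout m X).re →
    LL (toJ X) = cr X.1 X.2.2.1 ∧ ‖(toJ X).1‖ = ‖X.1‖ ^ 2 ∧
    |gg m (toJ X) - gref - (Wout m X).im / (Wout m X).re| ≤ 2e-7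

end

end Pool.Agent.HM
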