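import Pool.Agent.Helper49_HM.Top

/-!
# Dynamics: statements
-/

namespace Pool.Agent.HM

open Complex Set Topology

noncomputable section

/-! ### full coordinates -/

/-- positions and velocities of the three bodies -/
abbrev FS := Conf × Conf

/-- Newton's vector field -/
def NVF (m : Fin 3 → ℝ) (W : FS) : FS := (W.2, fun i => acc m W.1 i)

/-- pairwise distinct positions -/
def FreeF (q : Conf) : Prop := ∀ i j, i ≠ j → q i ≠ q j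

/-- normalized arc of Newton's equations of duration `T` -/
def IsFArc (m : Fin 3 → ℝ) (T : ℝ) (W : ℝ → FS) : Prop :=
  ∀ τ ∈ Icc (0 : ℝ) 1, FreeF (W τ).1 ∧ HasDerivWithinAt W (T • NVF m (W τ)) (Icc 0 1) τ

/-- rotation -/
def rotF (u : ℂ) (W : FS) : FS := (fun i => u * W.1 i, fun i => u * W.2 i)

/-- A cyclic chain of arcs which match up to rotations is a solution that is periodic modulo
rotations. -/
def ChainStmt : Prop := ∀ (m : Fin 3 → ℝ) (J : ℕ) (T : ℕ → ℝ) (W : ℕ → ℝ → FS) (u : ℕ → ℂ),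
  0 < J → (∀ j < J, 0 < T j) → (∀ j < J, IsFArc m (T j) (W j)) →
  (∀ j < J, ∀ τ ∈ Icc (0 : ℝ) 1, ∑ i, (m i : ℂ) * (W j τ).1 i = 0) →
  (∀ j < J, ‖u j‖ = 1) → (∀ j, j + 1 < J → W (j + 1) 0 = rotF (u j) (W j 1)) →
  W 0 0 = rotF (u (J - 1)) (W (J - 1) 1) →
  ∃ q v : ℝ → Conf, IsSol m q v ∧ ∃ t : ℕ → ℝ, t 0 = 0 ∧ (∀ j < J, t (j + 1) = t j + T j) ∧
    ∃ c : ℕ → ℂ, (∀ j < J, ‖c j‖ = 1) ∧ c 0 = 1 ∧
      (∀ j < J, ∀ τ ∈ Icc (0 : ℝ) 1, (q (t j + T j * τ), v (t j + T j * τ)) = rotF (c j) (W j τ)) ∧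
      ∃ U : ℂ, ‖U‖ = 1 ∧ ∀ s i, q (s + t J) i = U * q s i

/-- energy and angular momentum are constant along solutions -/
def ConsStmt : Prop := ∀ (m : Fin 3 → ℝ) (q v : ℝ → Conf), IsSol m q v → ∀ t,
  energy m (q t) (v t) = energy m (q 0) (v 0) ∧ angMom m (q t) (v t) = angMom m (q 0) (v 0)

/-- embedding of Jacobi positions (or velocities): labels `l 0, l 1, l 2` = first, second, outer;
`μ` = masses of first, second, outer -/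
def embP (μ : Fin 3 → ℝ) (l : Equiv.Perm (Fin 3)) (p : ℂ × ℂ) : Conf := fun i =>
  (![-(w1 μ : ℂ) * p.1 - ((μ 2 / mT μ : ℝ) : ℂ) * p.2,
    (w0 μ : ℂ) * p.1 - ((μ 2 / mT μ : ℝ) : ℂ) * p.2,
    (((μ 0 + μ 1) / mT μ : ℝ) : ℂ) * p.2] : Fin 3 → ℂ) (l.symm i)

def emb (μ : Fin 3 → ℝ) (l : Equiv.Perm (Fin 3)) (X : JS) : FS :=
  (embP μ l (X.1, X.2.1), embP μ l (X.2.2.1, X.2.2.2))

/-- masses in the order of the labels -/
def lab (m : Fin 3 → ℝ) (l : Equiv.Perm (Fin 3)) : Fin 3 → ℝ := fun i => m (l i)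

/-- labels (0,2;1) -/
def lz : Equiv.Perm (Fin 3) := Equiv.swap 1 2
/-- labels (1,2;0) -/
def lw : Equiv.Perm (Fin 3) := Equiv.swap 0 1 * Equiv.swap 1 2

/-- properties of the embedding -/
def EmbStmt : Prop := ∀ (m : Fin 3 → ℝ), (∀ i, 0 < m i) → ∀ l : Equiv.Perm (Fin 3),
  (∀ T P, IsNArc (lab m l) T P → IsFArc m T (fun τ => emb (lab m l) l (P τ))) ∧
  (∀ X, ∑ i, (m i : ℂ) * (emb (lab m l) l X).1 i = 0) ∧
  (∀ X, energy m (emb (lab m l) l X).1 (emb (lab m l) l X).2 = JE (lab m l) X) ∧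
  (∀ X, angMom m (emb (lab m l) l X).1 (emb (lab m l) l X).2 = JMu (lab m l) X) ∧
  (∀ X u, emb (lab m l) l (rotJ u X) = rotF u (emb (lab m l) l X)) ∧
  (∀ X, zc (lab m l) X = ((emb (lab m l) l X).1 (l 1) - (emb (lab m l) l X).1 (l 0)) /
    ((emb (lab m l) l X).1 (l 2) - (emb (lab m l) l X).1 (l 0)))

/-- change of labels (x,y;z) ↦ (z,y;x) -/
def SwStmt : Prop := ∀ (m : Fin 3 → ℝ), (∀ i, 0 < m i) → lab m lw = swm (lab m lz) ∧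
  lab m lz = swm (lab m lw) ∧
  (∀ X, emb (lab m lw) lw (sw (lab m lz) X) = emb (lab m lz) lz X) ∧
  (∀ X, emb (lab m lz) lz (sw (lab m lw) X) = emb (lab m lw) lw X)

/-- the two reversors -/
def SymStmt : Prop :=
  (∀ ξ, RX (RX ξ) = ξ) ∧ (∀ ξ ∈ box4, RX ξ ∈ box4) ∧
  (∀ m, (∀ i, 0 < m i) → ∀ ξ, rev (initA m (RX ξ)) = initA m ξ) ∧
  (∀ m, (∀ i, 0 < m i) → ∀ ξ, sw m (rev (initB m (RX ξ))) = rotJ (-1) (initB (swm m) ξ))

/-- initial data are in the level set; the start of B is real in `(0,1)` -/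
def InitStmt : Prop := ∃ ε : ℝ, 0 < ε ∧ ∀ m, Near1 ε m → ∀ ξ ∈ box4,
  Lev m (initA m ξ) ∧ Lev m (initB m ξ) ∧ ∃ x ∈ Ioo (0 : ℝ) 1, zc m (initB m ξ) = x

/-- reversal and rotation of arcs, conservation along arcs -/
def ArcStmt : Prop :=
  (∀ m T P, IsNArc m T P → IsNArc m T fun τ => rev (P (1 - τ))) ∧
  (∀ m T P u, ‖u‖ = 1 → IsNArc m T P → IsNArc m T fun τ => rotJ u (P τ)) ∧
  (∀ m, (∀ i, 0 < m i) → ∀ T P, IsNArc m T P → Lev m (P 0) → ∀ τ ∈ Icc (0 : ℝ) 1, Lev m (P τ))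

/-- masses near 1 and energy -1 imply the theorem -/
def Core1 : Prop := ∃ ε : ℝ, 0 < ε ∧ ∀ m, Near1 ε m →
  ∀ γ : C(AddCircle (1 : ℝ), RConf m), Realizes m (-1) γ

def ScaleStmt : Prop := Core1 → MainStatement

/-! ### output of the Poincaré–Miranda argument -/

/-- passage data for the four kinds of half passages for the mass vectors `lab m lz`, `lab m lw` -/
structure Chain (m : Fin 3 → ℝ) (k : ℕ) (N : ℕ → ℤ)
    (dA dB : (Fin 3 → ℝ) → (Fin 4 → ℝ) → ℝ) (PA PB : (Fin 3 → ℝ) → (Fin 4 → ℝ) → ℝ → JS)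
    (θA θB : (Fin 3 → ℝ) → (Fin 4 → ℝ) → ℝ → ℝ)
    (ξ : ℕ → Fin 4 → ℝ) (dur : ℕ → ℝ) (Q : ℕ → ℝ → JS) (u : ℕ → ℂ) : Prop where
  box : ∀ i < 4 * k, ξ i ∈ box4
  per : ξ (4 * k) = ξ 0
  pos : ∀ i < 4 * k, 0 < dur i
  unit : ∀ i < 4 * k, ‖u i‖ = 1
  /-- link `i`: zone 2 (labels `lz`) for `i % 4 ∈ {0,1}`, zone 1 (labels `lw`) otherwise;
  node `i`: B for even `i`, A for odd `i` -/
  arc : ∀ i < 4 * k, IsNArc (lab m (if i % 4 < 2 then lz else lw)) (dur i) (Q i)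
  start : ∀ i < 4 * k, Q i 0 =
    (if i % 2 = 0 then PB else PA) (lab m (if i % 4 < 2 then lz else lw)) (ξ i) 1
  stop : ∀ i < 4 * k, rotJ (u i) (Q i 1) =
    rev ((if i % 2 = 0 then PA else PB) (lab m (if i % 4 < 2 then lz else lw)) (RX (ξ (i + 1))) 1)
  path : ∀ i < 4 * k, ZonePath (fun τ => zc (lab m (if i % 4 < 2 then lz else lw)) (Q i τ))
    (zc (lab m (if i % 4 < 2 then lz else lw)) (Q i 0))
    (zc (lab m (if i % 4 < 2 then lz else lw)) (Q i 1))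
    ((if i % 2 = 0 then θB else θA) (lab m (if i % 4 < 2 then lz else lw)) (ξ i) 1)
    ((if i % 2 = 0 then θA else θB) (lab m (if i % 4 < 2 then lz else lw)) (RX (ξ (i + 1))) 1 +
      2 * Real.pi * N i)

/-- lifts of the shape coordinate along the families -/
def Lifts (m : Fin 3 → ℝ) (PA PB : (Fin 4 → ℝ) → ℝ → JS) (θA θB : (Fin 4 → ℝ) → ℝ → ℝ) : Prop :=
  Fam (fun ξ τ => zc m (PA ξ τ)) θA ∧ Fam (fun ξ τ => zc m (PB ξ τ)) θB ∧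
    (∀ ξ ∈ box4, θB ξ 0 = 0) ∧ (∀ ξ ∈ box4, θA (RX ξ) 0 = θA ξ 0)

/-- existence of chains for all large numbers of turns (Poincaré–Miranda) -/
def MirStmt : Prop := ∃ ε : ℝ, 0 < ε ∧ ∀ m, Near1 ε m →
  ∀ (dA dB : (Fin 3 → ℝ) → (Fin 4 → ℝ) → ℝ) (PA PB : (Fin 3 → ℝ) → (Fin 4 → ℝ) → ℝ → JS)
    (θA θB : (Fin 3 → ℝ) → (Fin 4 → ℝ) → ℝ → ℝ),
  (∀ μ, (μ = lab m lz ∨ μ = lab m lw) → Near initA uAB sAB LA gA μ (dA μ) (PA μ) ∧
    Near initB uBA sBA LB gB μ (dB μ) (PB μ) ∧ Lifts μ (PA μ) (PB μ) (θA μ) (θB μ)) →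
  ∃ N₀ : ℕ, ∀ (k : ℕ) (N : ℕ → ℤ), 0 < k →
    (∀ i < 4 * k, (N₀ : ℤ) ≤ (if i % 2 = 0 then N i else -N i)) →
    ∃ ξ dur Q u, Chain m k N dA dB PA PB θA θB ξ dur Q u

/-- final assembly -/
def AsmStmt : Prop := Core1

end

end Pool.Agent.HM
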