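import Pool.Agent.Helper49_HM.Dyn

/-!
# Levi-Civita coordinates: definitions and statements
-/

namespace Pool.Agent.HM

open Complex Set Topology

noncomputable section

/-- Kepler energy of the binary of the Levi-Civita state `(z, lam, w, ν)` (`ρ = z ^ 2`), computed
from the total energy `-1` -/
def hE (m : Fin 3 → ℝ) (X : JS) : ℝ :=
  (-1 - k2 m / 2 * ‖X.2.2.2‖ ^ 2 + m 0 * m 2 / ‖vA m (X.1 ^ 2) X.2.1‖ +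
    m 1 * m 2 / ‖vB m (X.1 ^ 2) X.2.1‖) / k1 m

/-- perturbing acceleration of the binary -/
def fP (m : Fin 3 → ℝ) (ρ lam : ℂ) : ℂ := (m 2 : ℂ) * (FF (vB m ρ lam) - FF (vA m ρ lam))
/-- acceleration of the outer body -/
def gP (m : Fin 3 → ℝ) (ρ lam : ℂ) : ℂ :=
  -((mT m / (m 0 + m 1) : ℝ) : ℂ) * ((m 0 : ℂ) * FF (vA m ρ lam) + (m 1 : ℂ) * FF (vB m ρ lam))

/-- the vector field in Levi-Civita coordinates, energy `-1`, time `s` with `dt = ‖z‖ ^ 2 ds` -/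
def LCV (m : Fin 3 → ℝ) (X : JS) : JS :=
  (X.2.2.1, ((‖X.1‖ ^ 2 : ℝ) : ℂ) * X.2.2.2,
    ((hE m X / 2 : ℝ) : ℂ) * X.1 +
      ((‖X.1‖ ^ 2 / 2 : ℝ) : ℂ) * (starRingEnd ℂ) X.1 * fP m (X.1 ^ 2) X.2.1,
    ((‖X.1‖ ^ 2 : ℝ) : ℂ) * gP m (X.1 ^ 2) X.2.1)

/-- Jacobi state of a Levi-Civita state -/
def toJ (X : JS) : JS := (X.1 ^ 2, X.2.1, 2 * X.2.2.1 / (starRingEnd ℂ) X.1, X.2.2.2)

def LFree (m : Fin 3 → ℝ) (X : JS) : Prop :=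
  X.1 ≠ 0 ∧ vA m (X.1 ^ 2) X.2.1 ≠ 0 ∧ vB m (X.1 ^ 2) X.2.1 ≠ 0

/-- continuous family of solutions in Levi-Civita coordinates on `[0,S]` -/
structure LArc (m : Fin 3 → ℝ) (S : ℝ) (x : (Fin 4 → ℝ) → ℝ → JS) : Prop where
  pos : 0 < S
  cont : ContinuousOn (fun p : (Fin 4 → ℝ) × ℝ => x p.1 p.2) (box4 ×ˢ Icc 0 S)
  free : ∀ ξ ∈ box4, ∀ s ∈ Icc 0 S, LFree m (x ξ s)
  der : ∀ ξ ∈ box4, ∀ s ∈ Icc 0 S, HasDerivWithinAt (x ξ) (LCV m (x ξ s)) (Icc 0 S) s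

/-- the inequalities at the end of a near passage -/
structure Ends (u s : ℝ → ℝ → ℝ) (L0 g0 : ℝ) (m : Fin 3 → ℝ) (Y : (Fin 4 → ℝ) → JS) : Prop where
  hR : ∀ ξ ∈ box4, 24 ≤ ‖(Y ξ).2.1‖ ∧ ‖(Y ξ).2.1‖ ≤ 24.8
  hX : ∀ ξ ∈ box4, ‖(Y ξ).1‖ ≤ 2
  hS : ∀ ξ ∈ box4, 0.485 ≤ SS (Y ξ) ∧ SS (Y ξ) ≤ 0.505
  hu : ∀ ξ ∈ box4, |u (LL (Y ξ)) (gg m (Y ξ)) - u L0 g0 - kapS * ξ 1| ≤ epU
  hs : ∀ ξ ∈ box4, |s (LL (Y ξ)) (gg m (Y ξ)) - s L0 g0| ≤ epS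
  hE : ∀ ξ ∈ box4, |EO m (Y ξ) - kapE * ξ 3| ≤ epE

/-- NUMERICS A -/
def NumAStmt : Prop := ∃ ε : ℝ, 0 < ε ∧ ∀ m, Near1 ε m → ∃ S x, LArc m S x ∧
  (∀ ξ ∈ box4, toJ (x ξ 0) = initA m ξ) ∧ Ends uAB sAB LA gA m fun ξ => toJ (x ξ S)

/-- concatenation of paths on `[0,S₁]` and `[0,S₂]`, parametrized by `[0,1]` -/
def catP (S₁ S₂ : ℝ) (f₁ f₂ : ℝ → ℂ) (τ : ℝ) : ℂ :=
  if (S₁ + S₂) * τ ≤ S₁ then f₁ ((S₁ + S₂) * τ) else f₂ ((S₁ + S₂) * τ - S₁)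

/-- from labels (z,y;x) to labels (x,z;y); `m` = masses of (x,z;y) -/
def zyx (m : Fin 3 → ℝ) (X : JS) : JS := exj (exm m) (sw (swm (exm m)) X)

/-- NUMERICS B: first piece with the pair (z,y), second piece with the pair (x,z); `m` = masses of
(x,z;y) -/
def NumBStmt : Prop := ∃ ε : ℝ, 0 < ε ∧ ∀ m, Near1 ε m → ∃ S₁ S₂ x₁ x₂,
  LArc (swm (exm m)) S₁ x₁ ∧ LArc m S₂ x₂ ∧
  (∀ ξ ∈ box4, toJ (x₁ ξ 0) = sw (exm m) (initB0 (exm m) ξ)) ∧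
  (∀ ξ ∈ box4, toJ (x₂ ξ 0) = zyx m (toJ (x₁ ξ S₁))) ∧
  (Ends uBA sBA LB gB m fun ξ => toJ (x₂ ξ S₂)) ∧
  CoreData (catP S₁ S₂ (fun s => zc m (zyx m (toJ (x₁ 0 s)))) (fun s => zc m (toJ (x₂ 0 s))))

/-! ### modules -/

/-- continuous family of Newtonian arcs -/
structure NFam (m : Fin 3 → ℝ) (dur : (Fin 4 → ℝ) → ℝ) (P : (Fin 4 → ℝ) → ℝ → JS) : Prop where
  contD : ContinuousOn dur box4
  cont : ContinuousOn (fun p : (Fin 4 → ℝ) × ℝ => P p.1 p.2) (box4 ×ˢ Icc 0 1)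
  pos : ∀ ξ ∈ box4, 0 < dur ξ
  arc : ∀ ξ ∈ box4, IsNArc m (dur ξ) (P ξ)

/-- NEWT: Levi-Civita families are Newtonian families, up to a change of time `φ` -/
def NewtStmt : Prop := ∀ m, (∀ i, 0 < m i) → ∀ S x, LArc m S x →
  (∀ ξ ∈ box4, Lev m (toJ (x ξ 0))) →
  ∃ dur P, NFam m dur P ∧ ∃ φ : (Fin 4 → ℝ) → ℝ → ℝ, ∀ ξ ∈ box4,
    ContinuousOn (φ ξ) (Icc 0 1) ∧ StrictMonoOn (φ ξ) (Icc 0 1) ∧ φ ξ 0 = 0 ∧ φ ξ 1 = S ∧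
    ∀ τ ∈ Icc (0 : ℝ) 1, P ξ τ = toJ (x ξ (φ ξ τ))

/-- LCH: changes of labels map arcs to arcs -/
def LchStmt : Prop := ∀ m, (∀ i, 0 < m i) →
  (∀ T P, IsNArc m T P → IsNArc (exm m) T fun τ => exj m (P τ)) ∧
  (∀ T P, IsNArc m T P → IsNArc (swm m) T fun τ => sw m (P τ)) ∧
  exm (exm m) = m ∧ swm (swm m) = m ∧ (∀ X, sw (swm m) (sw m X) = X) ∧
  (∀ X, exj (exm m) (exj m X) = X) ∧ (∀ X, Lev m X → Lev (swm m) (sw m X)) ∧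
  (∀ X, Lev m X → Lev (exm m) (exj m X))

/-- CAT: concatenation of families of arcs -/
def CatStmt : Prop := ∀ m dur₁ dur₂ P₁ P₂, NFam m dur₁ P₁ → NFam m dur₂ P₂ →
  (∀ ξ ∈ box4, P₁ ξ 1 = P₂ ξ 0) →
  ∃ dur P, NFam m dur P ∧ ∃ c : (Fin 4 → ℝ) → ℝ, ∀ ξ ∈ box4, c ξ ∈ Ioo (0 : ℝ) 1 ∧
    (∀ τ ∈ Icc (0 : ℝ) 1, P ξ (c ξ * τ) = P₁ ξ τ) ∧
    (∀ τ ∈ Icc (0 : ℝ) 1, P ξ (c ξ + (1 - c ξ) * τ) = P₂ ξ τ)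

/-- N2N: from the numerics to the near passages -/
def N2NStmt : Prop := NewtStmt → LchStmt → CatStmt → InitStmt → ArcStmt →
  (NumAStmt → NearAStmt) ∧ (NumBStmt → NearBStmt)

end

end Pool.Agent.HM
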