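import Pool.Agent.Helper49_HM.MirS
import Pool.Agent.Helper49_HM.LC
import Pool.Agent.Helper7_HM.Gg
import Pool.Agent.Helper7_HM.N2n
import Pool.Agent.Helper10_HM.Emb
import Pool.Agent.Helper10_HM.Steq3
import Pool.Agent.Helper12_HM.Sw
import Pool.Agent.Helper26_HM.Block
import Pool.Agent.Helper26_HM.Fin
import Pool.Agent.Helper31_HM.Scale
import Pool.Agent.Helper31_HM.Sym
import Pool.Agent.Helper31_HM.Cat
import Pool.Agent.Helper34_HM.Lch
import Pool.Agent.Helper34_HM.M4
import Pool.Agent.Helper44_HM.Lift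
import Pool.Agent.Helper46_HM.Init
import Pool.Agent.Helper54_HM.Word
import Pool.Agent.Helper54_HM.Newt
import Pool.Agent.Helper81_HM.Quot
import Pool.Agent.Helper87_HM.Arc
import Pool.Agent.Helper87_HM.Chain
import Pool.Agent.Helper87_HM.Cons

/-!
# Assembly
-/

namespace Pool.Agent.HM

theorem assemble (far : FarStmt) (link : LinkStmt) (sol : SolStmt) (numA : NumAStmt)
    (numB : NumBStmt) : MainStatement :=
  H31.scale (H26.fin H81.quot H54.word H44.lift H46.init H31.sym H87.arc
    ((H7.n2n H54.newt H34.lch H31.cat H46.init H87.arc).1 numA)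
    ((H7.n2n H54.newt H34.lch H31.cat H46.init H87.arc).2 numB)
    (H34.m4 far H10.steq H44.lift H7.gg_cont link)
    (sol H87.chain H87.cons H10.emb H12.sws H31.sym H46.init H87.arc H26.block))

end Pool.Agent.HM
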