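import Mathlib

/-!
# Free homotopy classes at zero angular momentum: the problem

`Conf` : positions (or velocities) of the three bodies in the plane `ℂ`.
`ConfM m` : collision free configurations with centre of mass `0` (masses `m`).
`RConf m` : the quotient by rotations. `Realizes m h γ` : the free homotopy class of the loop `γ` in
`RConf m` contains the loop of a collision free solution which is periodic modulo rotations, has
energy `h` and angular momentum `0`.
-/

namespace Pool.Agent.HM

open Complex Set Topology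

noncomputable section

/-- positions or velocities of the three bodies -/
abbrev Conf := Fin 3 → ℂ

/-- collision free configurations with centre of mass `0` -/
def ConfM (m : Fin 3 → ℝ) : Set Conf :=
  {q | ∑ i, (m i : ℂ) * q i = 0 ∧ ∀ i j, i ≠ j → q i ≠ q j}

/-- two configurations are equivalent when they differ by a rotation -/
def rotSetoid (m : Fin 3 → ℝ) : Setoid (ConfM m) where
  r x y := ∃ u : ℂ, ‖u‖ = 1 ∧ ∀ i, y.1 i = u * x.1 i
  iseqv := by
    refine ⟨fun x => ⟨1, by simp, fun i => by simp⟩, ?_, ?_⟩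
    · rintro x y ⟨u, hu, h⟩
      have hu0 : u ≠ 0 := by
        rintro rfl
        simp at hu
      exact ⟨u⁻¹, by simp [hu], fun i => by rw [h i]; field_simp⟩
    · rintro x y z ⟨u, hu, h⟩ ⟨w, hw, h'⟩
      exact ⟨w * u, by simp [hu, hw], fun i => by rw [h' i, h i]; ring⟩

/-- the reduced configuration space `M / SO(2)` with the quotient topology -/
def RConf (m : Fin 3 → ℝ) : Type := Quotient (rotSetoid m)

instance (m : Fin 3 → ℝ) : TopologicalSpace (RConf m) :=
  inferInstanceAs (TopologicalSpace (Quotient (rotSetoid m)))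

/-- class of a configuration -/
def cls {m : Fin 3 → ℝ} (q : ConfM m) : RConf m := Quotient.mk (rotSetoid m) q

/-- Newton's acceleration of body `i` -/
def acc (m : Fin 3 → ℝ) (q : Conf) (i : Fin 3) : ℂ :=
  ∑ j ∈ Finset.univ.erase i, (m j : ℂ) * (q j - q i) / ((‖q j - q i‖ : ℂ) ^ 3)

/-- collision free solutions of Newton's equations with centre of mass `0`, defined for all times -/
structure IsSol (m : Fin 3 → ℝ) (q v : ℝ → Conf) : Prop where
  mem : ∀ t, q t ∈ ConfM m
  hq : ∀ t i, HasDerivAt (fun t => q t i) (v t i) t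
  hv : ∀ t i, HasDerivAt (fun t => v t i) (acc m (q t) i) t

/-- energy -/
def energy (m : Fin 3 → ℝ) (q v : Conf) : ℝ :=
  (∑ i, m i * ‖v i‖ ^ 2) / 2 -
    (m 0 * m 1 / ‖q 0 - q 1‖ + m 0 * m 2 / ‖q 0 - q 2‖ + m 1 * m 2 / ‖q 1 - q 2‖)

/-- angular momentum -/
def angMom (m : Fin 3 → ℝ) (q v : Conf) : ℝ :=
  ∑ i, m i * ((starRingEnd ℂ) (q i) * v i).im

/-- The free homotopy class of the loop `γ` in `M / SO(2)` is realized by a collision free solution
which is periodic modulo rotations, with energy `h` and angular momentum `0`. -/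
def Realizes (m : Fin 3 → ℝ) (h : ℝ) (γ : C(AddCircle (1 : ℝ), RConf m)) : Prop :=
  ∃ (q v : ℝ → Conf) (hs : IsSol m q v) (T : ℝ) (u : ℂ), 0 < T ∧ ‖u‖ = 1 ∧
    (∀ t i, q (t + T) i = u * q t i) ∧
    (∀ t, energy m (q t) (v t) = h) ∧ (∀ t, angMom m (q t) (v t) = 0) ∧
    ∃ δ : C(AddCircle (1 : ℝ), RConf m),
      (∀ t : ℝ, δ (t : AddCircle (1 : ℝ)) = cls ⟨q (T * t), hs.mem (T * t)⟩) ∧ γ.Homotopic δ

/-- The theorem: for equal masses and for all masses sufficiently close to equal, at every negative
energy and angular momentum `0`, every free homotopy class is realized. -/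
def MainStatement : Prop :=
  ∃ ε : ℝ, 0 < ε ∧ ∀ m : Fin 3 → ℝ, (∀ i, 0 < m i) → (∀ i j, |m i / m j - 1| < ε) →
    ∀ h : ℝ, h < 0 → ∀ γ : C(AddCircle (1 : ℝ), RConf m), Realizes m h γ

end

end Pool.Agent.HM
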