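import Pool.Agent.Helper49_HM.Jac

/-!
# Interfaces: near passages (A, B), far excursions, topology
-/

namespace Pool.Agent.HM

open Complex Set Topology

noncomputable section

/-! ### parameters of the two near passages -/

/-- initial data of the brake passage A, labels (first, second; outer) -/
def initA (m : Fin 3 → ℝ) (ξ : Fin 4 → ℝ) : JS :=
  initS m
    (⟨0.021372222478 + 1.597506e-4 * (ξ 0 - ξ 1) - 5.418810e-6 * (ξ 2 + ξ 3),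
      0.994732204404 + 8.861563e-6 * (ξ 0 - ξ 1) - 2.067791e-5 * (ξ 2 + ξ 3)⟩ : ℂ)
    0
    (⟨-5.629854e-5 * (ξ 0 + ξ 1) + 1.858367e-6 * (ξ 2 - ξ 3),
      -8.326407e-6 * (ξ 0 + ξ 1) + 2.187857e-5 * (ξ 2 - ξ 3)⟩ : ℂ)

/-- initial data of the exchange passage B in the labels (x,y;z) (near the Euler configuration with
`z` in the middle), masses `m` of (x,y;z) -/
def initB0 (m : Fin 3 → ℝ) (ξ : Fin 4 → ℝ) : JS :=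
  initS m
    (⟨2.000601e-4 * (ξ 0 + ξ 1) - 3.961730e-6 * (ξ 2 - ξ 3), 0⟩ : ℂ)
    (-6.468103e-4 * (ξ 0 + ξ 1) + 2.796580e-5 * (ξ 2 - ξ 3))
    (⟨1.926496541103 - 1.219565e-4 * (ξ 0 - ξ 1) + 4.442087e-6 * (ξ 2 + ξ 3),
      0.852382690914 - 1.625578e-4 * (ξ 0 - ξ 1) + 1.255359e-5 * (ξ 2 + ξ 3)⟩ : ℂ)

/-- initial data of the exchange passage B, labels (x,z;y) (tight pair of the outgoing end),
masses `m` of (x,z;y) -/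
def initB (m : Fin 3 → ℝ) (ξ : Fin 4 → ℝ) : JS := exj (exm m) (initB0 (exm m) ξ)

def kapS : ℝ := 7e-4
def kapE : ℝ := 3e-4
def epU : ℝ := 9e-5
def epS : ℝ := 1.2e-4
def epE : ℝ := 1.8e-4

/-- coordinates on the link A-out / B-in -/
def uAB (L g : ℝ) : ℝ := (2.6 * L + g) / 4.65
def sAB (L g : ℝ) : ℝ := (2.05 * L - g) / 4.65
/-- coordinates on the link B-out / A-in -/
def uBA (L g : ℝ) : ℝ := (2.05 * L + g) / 4.65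
def sBA (L g : ℝ) : ℝ := (2.6 * L - g) / 4.65

def LA : ℝ := -0.047142
def gA : ℝ := 4.613562
def LB : ℝ := 0.047494
def gB : ℝ := 4.613951

/-- half of a near passage: family of arcs from `init m ξ` to the outgoing section -/
structure Near (init : (Fin 3 → ℝ) → (Fin 4 → ℝ) → JS) (u s : ℝ → ℝ → ℝ) (L0 g0 : ℝ)
    (m : Fin 3 → ℝ) (dur : (Fin 4 → ℝ) → ℝ) (P : (Fin 4 → ℝ) → ℝ → JS) : Prop where
  contD : ContinuousOn dur box4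
  cont : ContinuousOn (fun p : (Fin 4 → ℝ) × ℝ => P p.1 p.2) (box4 ×ˢ Icc 0 1)
  pos : ∀ ξ ∈ box4, 0 < dur ξ
  arc : ∀ ξ ∈ box4, IsNArc m (dur ξ) (P ξ)
  start : ∀ ξ ∈ box4, P ξ 0 = init m ξ
  lev : ∀ ξ ∈ box4, Lev m (P ξ 1)
  hR : ∀ ξ ∈ box4, 24 ≤ ‖(P ξ 1).2.1‖ ∧ ‖(P ξ 1).2.1‖ ≤ 24.8
  hX : ∀ ξ ∈ box4, ‖(P ξ 1).1‖ ≤ 2
  hS : ∀ ξ ∈ box4, 0.485 ≤ SS (P ξ 1) ∧ SS (P ξ 1) ≤ 0.505
  hu : ∀ ξ ∈ box4, |u (LL (P ξ 1)) (gg m (P ξ 1)) - u L0 g0 - kapS * ξ 1| ≤ epU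
  hs : ∀ ξ ∈ box4, |s (LL (P ξ 1)) (gg m (P ξ 1)) - s L0 g0| ≤ epS
  hE : ∀ ξ ∈ box4, |EO m (P ξ 1) - kapE * ξ 3| ≤ epE

/-- letter `1`: negative reals, letter `2`: reals beyond `1`, letter `3`: reals in `(0,1)`;
`Opn l z` : `z` is in the plane slit along the other two letters -/
def Opn (l : Fin 3) (z : ℂ) : Prop :=
  z.im ≠ 0 ∨ (l = 0 ∧ z.re < 0) ∨ (l = 1 ∧ 1 < z.re) ∨ (l = 2 ∧ 0 < z.re ∧ z.re < 1)

/-- zone around the puncture `0` -/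
def Zone (z : ℂ) : Prop := z ≠ 0 ∧ ‖z‖ < 1 / 2

/-- crossing data of the exchange passage: word 2 1 3 3 1 2, then the zone -/
def CoreData (z : ℝ → ℂ) : Prop :=
  ∃ t : Fin 7 → ℝ, 0 < t 0 ∧ StrictMono t ∧ t 6 < 1 ∧
    0 < (z (t 0)).im ∧ (z (t 1)).im < 0 ∧ 0 < (z (t 2)).im ∧ (z (t 3)).im < 0 ∧
    0 < (z (t 4)).im ∧ (z (t 5)).im < 0 ∧ 0 < (z (t 6)).im ∧
    (∀ τ ∈ Icc 0 (t 0), Opn 2 (z τ)) ∧ (∀ τ ∈ Icc (t 0) (t 1), Opn 1 (z τ)) ∧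
    (∀ τ ∈ Icc (t 1) (t 2), Opn 0 (z τ)) ∧ (∀ τ ∈ Icc (t 2) (t 3), Opn 2 (z τ)) ∧
    (∀ τ ∈ Icc (t 3) (t 4), Opn 2 (z τ)) ∧ (∀ τ ∈ Icc (t 4) (t 5), Opn 0 (z τ)) ∧
    (∀ τ ∈ Icc (t 5) (t 6), Opn 1 (z τ)) ∧ (∀ τ ∈ Icc (t 6) 1, Zone (z τ))

/-- NEAR PASSAGE A (validated numerics): for all masses near 1 -/
def NearAStmt : Prop := ∃ ε : ℝ, 0 < ε ∧ ∀ m, Near1 ε m → ∃ dur P, Near initA uAB sAB LA gA m dur P

/-- NEAR PASSAGE B (validated numerics): for all masses near 1 -/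
def NearBStmt : Prop := ∃ ε : ℝ, 0 < ε ∧ ∀ m, Near1 ε m →
  ∃ dur P, Near initB uBA sBA LB gB m dur P ∧ CoreData fun τ => zc m (P 0 τ)

/-! ### far excursions -/

/-- centre of the drift of `LL` over one excursion -/
def dLf : ℝ := -3.59e-4
/-- centre of the drift of `gg` over one excursion, for `LL < 0` (opposite sign for `LL > 0`) -/
def dGf : ℝ := 3.93e-4
/-- allowed deviation of the drift in the two link coordinates (`etaD + epU + epS < kapS`) -/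
def etaD : ℝ := 4.85e-4
/-- threshold for the outer energy -/
def wE : ℝ := 1e-4

/-- outgoing states with elements in the window -/
def WinP (m : Fin 3 → ℝ) (σ : ℝ) : Set JS :=
  {X | Lev m X ∧ ‖X.1‖ ≤ 2 ∧ 24 ≤ ‖X.2.1‖ ∧ ‖X.2.1‖ ≤ 24.8 ∧ 0.485 ≤ SS X ∧ SS X ≤ 0.505 ∧
    0.0455 ≤ σ * LL X ∧ σ * LL X ≤ 0.0490 ∧ |gg m X - gref| ≤ 0.0045 ∧ |EO m X| ≤ 6e-4}

/-- domain: outgoing state and radial velocity at which the excursion is stopped -/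
def Dom (m : Fin 3 → ℝ) (σ : ℝ) : Set (JS × ℝ) := WinP m σ ×ˢ Icc (-0.505) (-0.485)

/-- the far excursions, stopped when the radial velocity is `a.2`, truncated at time `Tmax` -/
structure Far (m : Fin 3 → ℝ) (σ : ℝ) (T1 T2 c C : ℝ) (Tmax : ℝ) (dur : JS × ℝ → ℝ)
    (P : JS × ℝ → ℝ → JS) : Prop where
  contD : ContinuousOn dur (Dom m σ)
  cont : ContinuousOn (fun p : (JS × ℝ) × ℝ => P p.1 p.2) (Dom m σ ×ˢ Icc 0 1)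
  pos : ∀ a ∈ Dom m σ, 0 < dur a ∧ dur a ≤ Tmax
  arc : ∀ a ∈ Dom m σ, IsNArc m (dur a) (P a)
  start : ∀ a ∈ Dom m σ, P a 0 = a.1
  zone : ∀ a ∈ Dom m σ, ∀ τ ∈ Icc (0 : ℝ) 1, ‖(P a τ).1‖ ≤ ‖(P a τ).2.1‖ / 8
  ret : ∀ a ∈ Dom m σ, dur a < Tmax → SS (P a 1) = a.2 ∧ ‖(P a 1).2.1‖ ≤ 26
  far : ∀ a ∈ Dom m σ, 23 ≤ ‖(P a 1).2.1‖
  tight : ∀ a ∈ Dom m σ, ‖(P a 1).1‖ ≤ 2
  win : ∀ a ∈ Dom m σ, |EO m (P a 1)| ≤ 1e-3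
  /-- drift of `4.65 * u`, where `u = uAB` for `σ = -1` and `u = uBA` for `σ = 1` -/
  driftU : ∀ a ∈ Dom m σ, |(2.325 - 0.275 * σ) * (LL (P a 1) - LL a.1 - dLf) +
    (gg m (P a 1) - gg m a.1 + σ * dGf)| ≤ 4.65 * etaD
  /-- drift of `4.65 * s`, where `s = sAB` for `σ = -1` and `s = sBA` for `σ = 1` -/
  driftS : ∀ a ∈ Dom m σ, |(2.325 + 0.275 * σ) * (LL (P a 1) - LL a.1 - dLf) -
    (gg m (P a 1) - gg m a.1 + σ * dGf)| ≤ 4.65 * etaD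
  /-- positive energy: no return -/
  esc : ∀ a ∈ Dom m σ, wE ≤ EO m a.1 → dur a = Tmax
  /-- negative energy: bounded time -/
  bdd : ∀ a ∈ Dom m σ, EO m a.1 ≤ -wE → dur a ≤ T1
  /-- long return: small energy -/
  small : ∀ a ∈ Dom m σ, T2 ≤ dur a → dur a < Tmax → |EO m (P a 1)| ≤ wE
  /-- angle of the binary relative to the outer body: linear growth -/
  angle : ∀ a ∈ Dom m σ, ∀ θ : ℝ → ℝ, ContinuousOn θ (Icc 0 1) →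
    (∀ τ ∈ Icc (0 : ℝ) 1, (P a τ).1 / (P a τ).2.1 = ‖(P a τ).1 / (P a τ).2.1‖ * exp (I * θ τ)) →
    c * dur a - C ≤ σ * (θ 1 - θ 0) ∧ σ * (θ 1 - θ 0) ≤ C * dur a + C

/-- FAR EXCURSIONS: `T1, T2, c, C` do not depend on `Tmax` -/
def FarStmt : Prop := ∃ ε : ℝ, 0 < ε ∧ ∀ m, Near1 ε m → ∀ σ : ℝ, (σ = 1 ∨ σ = -1) →
  ∃ T1 T2 c C : ℝ, 0 < c ∧ 0 < C ∧ ∀ Tmax : ℝ, max T1 T2 < Tmax →
    ∃ dur P, Far m σ T1 T2 c C Tmax dur P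

/-- incoming states -/
def WinM (m : Fin 3 → ℝ) : Set JS :=
  {X | Lev m X ∧ ‖X.1‖ ≤ 2 ∧ 23 ≤ ‖X.2.1‖ ∧ ‖X.2.1‖ ≤ 26 ∧ SS X < 0 ∧
    0.044 ≤ |LL X| ∧ |LL X| ≤ 0.051 ∧ |gg m X - gref| ≤ 0.01 ∧ |EO m X| ≤ 1e-3}

/-- an incoming state is determined, up to rotation, by its elements -/
def SteqStmt : Prop := ∃ ε : ℝ, 0 < ε ∧ ∀ m, Near1 ε m → ∀ X ∈ WinM m, ∀ Y ∈ WinM m,
  SS X = SS Y → LL X = LL Y → EO m X = EO m Y → gg m X = gg m Y →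
  (∃ θ : ℝ, X.1 / X.2.1 = ‖X.1 / X.2.1‖ * exp (I * θ) ∧
    Y.1 / Y.2.1 = ‖Y.1 / Y.2.1‖ * exp (I * θ)) →
  ∃ u : ℂ, ‖u‖ = 1 ∧ Y = rotJ u X

end

end Pool.Agent.HM
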