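import Pool.Agent.Helper49_HM.Defs

/-!
# Jacobi states

A label triple is (first, second; outer) with masses `m 0, m 1, m 2`. A Jacobi state is
`(ρ, lam, ρ', ν)`: `ρ = q_second - q_first`, `lam = q_outer - (centre of mass of first, second)`,
and their velocities.
-/

namespace Pool.Agent.HM

open Complex Set Topology

noncomputable section

abbrev JS := ℂ × ℂ × ℂ × ℂ

/-- masses within `ε` of `1` -/
def Near1 (ε : ℝ) (m : Fin 3 → ℝ) : Prop := ∀ i, |m i - 1| < ε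

def k1 (m : Fin 3 → ℝ) : ℝ := m 0 * m 1 / (m 0 + m 1)
def k2 (m : Fin 3 → ℝ) : ℝ := m 2 * (m 0 + m 1) / (m 0 + m 1 + m 2)
def mT (m : Fin 3 → ℝ) : ℝ := m 0 + m 1 + m 2
/-- weights of the first and second body -/
def w0 (m : Fin 3 → ℝ) : ℝ := m 0 / (m 0 + m 1)
def w1 (m : Fin 3 → ℝ) : ℝ := m 1 / (m 0 + m 1)

/-- `q_outer - q_first` for positions `ρ, lam` (or velocities) -/
def vA (m : Fin 3 → ℝ) (ρ lam : ℂ) : ℂ := lam + (w1 m : ℂ) * ρ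
/-- `q_outer - q_second` -/
def vB (m : Fin 3 → ℝ) (ρ lam : ℂ) : ℂ := lam - (w0 m : ℂ) * ρ

def FF (z : ℂ) : ℂ := z / ((‖z‖ : ℂ) ^ 3)

/-- Newton's vector field in Jacobi coordinates -/
def JVF (m : Fin 3 → ℝ) (X : JS) : JS :=
  (X.2.2.1, X.2.2.2,
    -((m 0 + m 1 : ℝ) : ℂ) * FF X.1 + (m 2 : ℂ) * (FF (vB m X.1 X.2.1) - FF (vA m X.1 X.2.1)),
    -((mT m / (m 0 + m 1) : ℝ) : ℂ) *
      ((m 0 : ℂ) * FF (vA m X.1 X.2.1) + (m 1 : ℂ) * FF (vB m X.1 X.2.1)))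

/-- no collision -/
def Free (m : Fin 3 → ℝ) (X : JS) : Prop := X.1 ≠ 0 ∧ vA m X.1 X.2.1 ≠ 0 ∧ vB m X.1 X.2.1 ≠ 0

/-- cross product of two plane vectors -/
def cr (z w : ℂ) : ℝ := ((starRingEnd ℂ) z * w).im
/-- scalar product of two plane vectors -/
def dt (z w : ℂ) : ℝ := ((starRingEnd ℂ) z * w).re

/-- energy -/
def JE (m : Fin 3 → ℝ) (X : JS) : ℝ :=
  k1 m / 2 * ‖X.2.2.1‖ ^ 2 + k2 m / 2 * ‖X.2.2.2‖ ^ 2 - m 0 * m 1 / ‖X.1‖ -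
    m 0 * m 2 / ‖vA m X.1 X.2.1‖ - m 1 * m 2 / ‖vB m X.1 X.2.1‖
/-- angular momentum -/
def JMu (m : Fin 3 → ℝ) (X : JS) : ℝ := k1 m * cr X.1 X.2.2.1 + k2 m * cr X.2.1 X.2.2.2

/-- the level set: collision free, energy `-1`, angular momentum `0` -/
def Lev (m : Fin 3 → ℝ) (X : JS) : Prop := Free m X ∧ JE m X = -1 ∧ JMu m X = 0

/-- normalized arc: a solution of duration `T`, parametrized by `[0,1]` -/
def IsNArc (m : Fin 3 → ℝ) (T : ℝ) (P : ℝ → JS) : Prop :=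
  ∀ τ ∈ Icc (0 : ℝ) 1, Free m (P τ) ∧ HasDerivWithinAt P (T • JVF m (P τ)) (Icc 0 1) τ

/-- time reversal -/
def rev (X : JS) : JS := (X.1, X.2.1, -X.2.2.1, -X.2.2.2)
/-- rotation -/
def rotJ (u : ℂ) (X : JS) : JS := (u * X.1, u * X.2.1, u * X.2.2.1, u * X.2.2.2)

/-- shape coordinate `(q_second - q_first)/(q_outer - q_first)` in `ℂ ∖ {0,1}` -/
def zc (m : Fin 3 → ℝ) (X : JS) : ℂ := X.1 / vA m X.1 X.2.1

/-- masses for the labels (x,y;z) ↦ (z,y;x) -/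
def swm (m : Fin 3 → ℝ) : Fin 3 → ℝ := ![m 2, m 1, m 0]
/-- change of labels (x,y;z) ↦ (z,y;x) on positions (or velocities) -/
def swv (m : Fin 3 → ℝ) (p : ℂ × ℂ) : ℂ × ℂ :=
  (-vB m p.1 p.2, -vA m p.1 p.2 + (w1 (swm m) : ℂ) * vB m p.1 p.2)
/-- change of labels (x,y;z) ↦ (z,y;x); the new masses are `swm m` -/
def sw (m : Fin 3 → ℝ) (X : JS) : JS :=
  ((swv m (X.1, X.2.1)).1, (swv m (X.1, X.2.1)).2,
    (swv m (X.2.2.1, X.2.2.2)).1, (swv m (X.2.2.1, X.2.2.2)).2)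

/-- masses for the labels (x,y;z) ↦ (x,z;y) -/
def exm (m : Fin 3 → ℝ) : Fin 3 → ℝ := ![m 0, m 2, m 1]
def exv (m : Fin 3 → ℝ) (p : ℂ × ℂ) : ℂ × ℂ :=
  (vA m p.1 p.2, p.1 - (w1 (exm m) : ℂ) * vA m p.1 p.2)
/-- change of labels (x,y;z) ↦ (x,z;y); the new masses are `exm m` -/
def exj (m : Fin 3 → ℝ) (X : JS) : JS :=
  ((exv m (X.1, X.2.1)).1, (exv m (X.1, X.2.1)).2,
    (exv m (X.2.2.1, X.2.2.2)).1, (exv m (X.2.2.1, X.2.2.2)).2)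

/-! ### elements -/

/-- half of the areal constant of the binary (for masses 1: its angular momentum) -/
def LL (X : JS) : ℝ := cr X.1 X.2.2.1 / 2
/-- Kepler energy of the binary -/
def hb (m : Fin 3 → ℝ) (X : JS) : ℝ := ‖X.2.2.1‖ ^ 2 / 2 - (m 0 + m 1) / ‖X.1‖
/-- Laplace vector of the binary -/
def lrl (m : Fin 3 → ℝ) (X : JS) : ℂ :=
  -(I * (cr X.1 X.2.2.1 : ℂ) * X.2.2.1) / ((m 0 + m 1 : ℝ) : ℂ) - X.1 / (‖X.1‖ : ℂ)
/-- minus the Laplace vector of the outer orbit -/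
def outm (m : Fin 3 → ℝ) (X : JS) : ℂ :=
  X.2.1 / (‖X.2.1‖ : ℂ) + I * (cr X.2.1 X.2.2.2 : ℂ) * X.2.2.2 / (mT m : ℂ)

/-- reference value of the angle -/
def gref : ℝ := 4.614

/-- angle from the axis of the outer orbit to the Laplace vector of the binary -/
def gg (m : Fin 3 → ℝ) (X : JS) : ℝ :=
  gref + arg (lrl m X * (starRingEnd ℂ) (outm m X) * exp (-(I * gref)))

/-- radial velocity of the outer body -/
def SS (X : JS) : ℝ := dt X.2.1 X.2.2.2 / ‖X.2.1‖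
/-- energy of the outer Kepler orbit (for masses 1: `|ν|²/3 - 2/R`) -/
def EO (m : Fin 3 → ℝ) (X : JS) : ℝ := ‖X.2.2.2‖ ^ 2 / 3 - 2 * mT m / (3 * ‖X.2.1‖)

/-! ### boxes and initial data -/

/-- the box of parameters (incoming s, outgoing u, incoming energy, outgoing energy) -/
def box4 : Set (Fin 4 → ℝ) := Icc (fun _ => -1) (fun _ => 1)
/-- the involution induced by the reversors -/
def RX (ξ : Fin 4 → ℝ) : Fin 4 → ℝ := ![-ξ 1, -ξ 0, ξ 3, ξ 2]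

/-- the state with `ρ > 0` real, `lam = ρ ζ`, `Re ρ' = a`, `ν`, energy `-1`, angular momentum `0` -/
def initS (m : Fin 3 → ℝ) (ζ : ℂ) (a : ℝ) (ν : ℂ) : JS :=
  let b : ℝ := -(k2 m / k1 m) * cr ζ ν
  let K : ℝ := k1 m / 2 * (a ^ 2 + b ^ 2) + k2 m / 2 * ‖ν‖ ^ 2
  let U : ℝ := m 0 * m 1 + m 0 * m 2 / ‖vA m 1 ζ‖ + m 1 * m 2 / ‖vB m 1 ζ‖
  let r : ℝ := U / (1 + K)
  ((r : ℂ), (r : ℂ) * ζ, (a : ℂ) + I * b, ν)

end

end Pool.Agent.HM
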