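import Pool.Agent.Helper49_HM.LC
import Pool.Agent.Helper2_TM.Step

/-!
# From solutions in real coordinates to Levi-Civita arcs
-/

namespace Pool.Agent.HM

open Complex Set Topology Pool.Agent.H2TM

noncomputable section

/-- the nine mass factors -/
def cstM (m : Fin 3 → ℝ) : Cst :=
  ![2 * w1 m, 2 * w0 m, m 0 * m 2 / (2 * k1 m), m 1 * m 2 / (2 * k1 m), 1 / (2 * k1 m),
    3 * k2 m / (4 * k1 m), m 2, 2 * mT m * m 0 / (3 * (m 0 + m 1)),
    2 * mT m * m 1 / (3 * (m 0 + m 1))]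

/-- real coordinates of a Levi-Civita state -/
def R8 (X : JS) : Fin 8 → ℝ :=
  ![X.1.re, X.1.im, X.2.2.1.re, X.2.2.1.im, X.2.1.re, X.2.1.im, X.2.2.2.re, X.2.2.2.im]

def C8 (y : Fin 8 → ℝ) : JS := (⟨y 0, y 1⟩, ⟨y 4, y 5⟩, ⟨y 2, y 3⟩, ⟨y 6, y 7⟩)

theorem C8_R8 (X : JS) : C8 (R8 X) = X := rfl

theorem R8_C8 (y : Fin 8 → ℝ) : R8 (C8 y) = y := by
  funext i
  fin_cases i <;> rfl

/-! ### mass factors -/

theorem nr_mul {D p q x y : ℝ} (hD : 0 ≤ D) (hp : 0 ≤ p) (hq : 0 ≤ q) (hpq : p * q * D ≤ 1)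
    (hx : |x - 1| ≤ p * D) (hy : |y - 1| ≤ q * D) : |x * y - 1| ≤ (p + q + 1) * D := by
  have e : x * y - 1 = (x - 1) * (y - 1) + (x - 1) + (y - 1) := by ring
  have h1 : |(x - 1) * (y - 1)| ≤ D := by
    rw [abs_mul]
    calc |x - 1| * |y - 1| ≤ (p * D) * (q * D) :=
          mul_le_mul hx hy (abs_nonneg _) (by positivity)
      _ = (p * q * D) * D := by ring
      _ ≤ 1 * D := by gcongr
      _ = D := one_mul D
  rw [e]
  calc |(x - 1) * (y - 1) + (x - 1) + (y - 1)|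
      ≤ |(x - 1) * (y - 1)| + |x - 1| + |y - 1| := by
        refine (abs_add_le _ _).trans ?_
        gcongr
        exact abs_add_le _ _
    _ ≤ D + p * D + q * D := by gcongr
    _ = (p + q + 1) * D := by ring

theorem nr_inv {D q y : ℝ} (hD : 0 ≤ D) (hq : 0 ≤ q) (hqD : q * (q + 1) * D ≤ 1)
    (hy : |y - 1| ≤ q * D) : |y⁻¹ - 1| ≤ (q + 1) * D := by
  by_cases hq0 : q = 0
  · subst hq0
    have : y = 1 := by
      have h0 : |y - 1| ≤ 0 := by rw [zero_mul] at hy; exact hy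
      have := abs_nonpos_iff.1 h0
      linarith
    subst this
    simp
    linarith
  have hq' : 0 < q := lt_of_le_of_ne hq (Ne.symm hq0)
  have h1 : q * D ≤ 1 / (q + 1) := by
    rw [le_div_iff₀ (by positivity)]
    linarith
  have h2 : 1 / (q + 1) < 1 := by
    rw [div_lt_one (by positivity)]
    linarith
  have hy1 := abs_le.1 hy
  have hlow : q / (q + 1) ≤ y := by
    have : q / (q + 1) = 1 - 1 / (q + 1) := by field_simp; ring
    rw [this]
    linarith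
  have hy0 : 0 < y := lt_of_lt_of_le (by positivity) hlow
  have e : y⁻¹ - 1 = -(y - 1) / y := by field_simp; ring
  rw [e, abs_div, abs_neg, abs_of_pos hy0, div_le_iff₀ hy0]
  calc |y - 1| ≤ q * D := hy
    _ = (q + 1) * D * (q / (q + 1)) := by field_simp
    _ ≤ (q + 1) * D * y := by gcongr

theorem cstM_ok (m : Fin 3 → ℝ) (hm : Near1 (1 / 2 ^ 50) m) : CstOk (cstM m) := by
  obtain ⟨D, hDdef⟩ : ∃ D : ℝ, D = 1 / 2 ^ 50 := ⟨_, rfl⟩
  rw [← hDdef] at hm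
  have hD : 0 ≤ D := by rw [hDdef]; positivity
  have hD1 : D * 1000 ≤ 1 := by rw [hDdef]; norm_num
  have a0 : |m 0 - 1| ≤ 1 * D := by rw [one_mul]; exact (hm 0).le
  have a1 : |m 1 - 1| ≤ 1 * D := by rw [one_mul]; exact (hm 1).le
  have a2 : |m 2 - 1| ≤ 1 * D := by rw [one_mul]; exact (hm 2).le
  obtain ⟨b0, b0'⟩ := abs_le.1 a0
  obtain ⟨b1, b1'⟩ := abs_le.1 a1
  obtain ⟨b2, b2'⟩ := abs_le.1 a2
  have p0 : 0 < m 0 := by linarith
  have p1 : 0 < m 1 := by linarith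
  have p2 : 0 < m 2 := by linarith
  obtain ⟨s, hs⟩ : ∃ s : ℝ, s = (m 0 + m 1) / 2 := ⟨_, rfl⟩
  obtain ⟨t, ht⟩ : ∃ t : ℝ, t = (m 0 + m 1 + m 2) / 3 := ⟨_, rfl⟩
  have as : |s - 1| ≤ 1 * D := by rw [abs_le]; constructor <;> linarith
  have at' : |t - 1| ≤ 1 * D := by rw [abs_le]; constructor <;> linarith
  have i0 := nr_inv hD zero_le_one (by linarith) a0
  have i1 := nr_inv hD zero_le_one (by linarith) a1
  have is := nr_inv hD zero_le_one (by linarith) as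
  have it := nr_inv hD zero_le_one (by linarith) at'
  have fin : ∀ {k x : ℝ}, k ≤ 16 → |x - 1| ≤ k * D → |x - 1| ≤ 1 / 2 ^ 46 := by
    intro k x hk hx
    refine hx.trans ?_
    calc k * D ≤ 16 * D := by gcongr
      _ = 1 / 2 ^ 46 := by rw [hDdef]; norm_num
  have ps : 0 < s := by linarith
  have pt : 0 < t := by linarith
  intro i
  fin_cases i
  · -- 2 w1 = m 1 / s
    have h := nr_mul hD (by norm_num) (by norm_num) (by linarith) a1 is
    have e : cstM m 0 = m 1 * s⁻¹ := by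
      show 2 * (m 1 / (m 0 + m 1)) = _
      rw [hs]; field_simp
    show |cstM m 0 - 1| ≤ _
    rw [e]
    exact fin (by norm_num) h
  · have h := nr_mul hD (by norm_num) (by norm_num) (by linarith) a0 is
    have e : cstM m 1 = m 0 * s⁻¹ := by
      show 2 * (m 0 / (m 0 + m 1)) = _
      rw [hs]; field_simp
    show |cstM m 1 - 1| ≤ _
    rw [e]
    exact fin (by norm_num) h
  · have h := nr_mul hD (by norm_num) (by norm_num) (by linarith)
      (nr_mul hD (by norm_num) (by norm_num) (by linarith) a2 as) i1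
    have e : cstM m 2 = m 2 * s * (m 1)⁻¹ := by
      show m 0 * m 2 / (2 * (m 0 * m 1 / (m 0 + m 1))) = _
      rw [hs]; field_simp
    show |cstM m 2 - 1| ≤ _
    rw [e]
    exact fin (by norm_num) h
  · have h := nr_mul hD (by norm_num) (by norm_num) (by linarith)
      (nr_mul hD (by norm_num) (by norm_num) (by linarith) a2 as) i0
    have e : cstM m 3 = m 2 * s * (m 0)⁻¹ := by
      show m 1 * m 2 / (2 * (m 0 * m 1 / (m 0 + m 1))) = _
      rw [hs]; field_simp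
    show |cstM m 3 - 1| ≤ _
    rw [e]
    exact fin (by norm_num) h
  · have h := nr_mul hD (by norm_num) (by norm_num) (by linarith)
      (nr_mul hD (by norm_num) (by norm_num) (by linarith) as i0) i1
    have e : cstM m 4 = s * (m 0)⁻¹ * (m 1)⁻¹ := by
      show 1 / (2 * (m 0 * m 1 / (m 0 + m 1))) = _
      rw [hs]; field_simp
    show |cstM m 4 - 1| ≤ _
    rw [e]
    exact fin (by norm_num) h
  · have h1 := nr_mul hD (by norm_num) (by norm_num) (by linarith)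
      (nr_mul hD (by norm_num) (by norm_num) (by linarith) a2 as) as
    have h2 := nr_mul hD (by norm_num) (by norm_num) (by linarith) h1 it
    have h3 := nr_mul hD (by norm_num) (by norm_num) (by linarith) h2 i0
    have h := nr_mul hD (by norm_num) (by norm_num) (by linarith) h3 i1
    have e : cstM m 5 = m 2 * s * s * t⁻¹ * (m 0)⁻¹ * (m 1)⁻¹ := by
      show 3 * (m 2 * (m 0 + m 1) / (m 0 + m 1 + m 2)) / (4 * (m 0 * m 1 / (m 0 + m 1))) = _
      rw [hs, ht]; field_simp; ring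
    show |cstM m 5 - 1| ≤ _
    rw [e]
    exact fin (by norm_num) h
  · show |m 2 - 1| ≤ _
    exact fin (by norm_num) a2
  · have h := nr_mul hD (by norm_num) (by norm_num) (by linarith)
      (nr_mul hD (by norm_num) (by norm_num) (by linarith) at' a0) is
    have e : cstM m 7 = t * m 0 * s⁻¹ := by
      show 2 * (m 0 + m 1 + m 2) * m 0 / (3 * (m 0 + m 1)) = _
      rw [hs, ht]; field_simp
    show |cstM m 7 - 1| ≤ _
    rw [e]
    exact fin (by norm_num) h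
  · have h := nr_mul hD (by norm_num) (by norm_num) (by linarith)
      (nr_mul hD (by norm_num) (by norm_num) (by linarith) at' a1) is
    have e : cstM m 8 = t * m 1 * s⁻¹ := by
      show 2 * (m 0 + m 1 + m 2) * m 1 / (3 * (m 0 + m 1)) = _
      rw [hs, ht]; field_simp
    show |cstM m 8 - 1| ≤ _
    rw [e]
    exact fin (by norm_num) h

/-! ### the field -/

theorem nrm_eq (z : ℂ) : ‖z‖ = Real.sqrt (z.re * z.re + z.im * z.im) := by
  rw [Complex.norm_def, Complex.normSq_apply]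

theorem FF_re (z : ℂ) : (FF z).re = (1 / ‖z‖) * (1 / ‖z‖) * (1 / ‖z‖) * z.re := by
  have : FF z = (((1 / ‖z‖) * (1 / ‖z‖) * (1 / ‖z‖) : ℝ) : ℂ) * z := by
    unfold FF; push_cast; rw [div_eq_mul_inv]; ring
  rw [this, Complex.re_ofReal_mul]

theorem FF_im (z : ℂ) : (FF z).im = (1 / ‖z‖) * (1 / ‖z‖) * (1 / ‖z‖) * z.im := by
  have : FF z = (((1 / ‖z‖) * (1 / ‖z‖) * (1 / ‖z‖) : ℝ) : ℂ) * z := by
    unfold FF; push_cast; rw [div_eq_mul_inv]; ring
  rw [this, Complex.im_ofReal_mul]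

theorem vA_C8 (m : Fin 3 → ℝ) (y : Fin 8 → ℝ) :
    vA m ((C8 y).1 ^ 2) (C8 y).2.1 = ⟨lcax (cstM m) y, lcay (cstM m) y⟩ := by
  apply Complex.ext
  · show (vA m ((⟨y 0, y 1⟩ : ℂ) ^ 2) ⟨y 4, y 5⟩).re = y 4 + (y 0 * y 0 - y 1 * y 1) * (1 / 2) *
      (2 * w1 m)
    simp [vA, pow_two]
    ring
  · show (vA m ((⟨y 0, y 1⟩ : ℂ) ^ 2) ⟨y 4, y 5⟩).im = y 5 + y 0 * y 1 * (2 * w1 m)
    simp [vA, pow_two]
    ring

theorem vB_C8 (m : Fin 3 → ℝ) (y : Fin 8 → ℝ) :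
    vB m ((C8 y).1 ^ 2) (C8 y).2.1 = ⟨lcbx (cstM m) y, lcby (cstM m) y⟩ := by
  apply Complex.ext
  · show (vB m ((⟨y 0, y 1⟩ : ℂ) ^ 2) ⟨y 4, y 5⟩).re = y 4 - (y 0 * y 0 - y 1 * y 1) * (1 / 2) *
      (2 * w0 m)
    simp [vB, pow_two]
    ring
  · show (vB m ((⟨y 0, y 1⟩ : ℂ) ^ 2) ⟨y 4, y 5⟩).im = y 5 - y 0 * y 1 * (2 * w0 m)
    simp [vB, pow_two]
    ring

theorem invA (m : Fin 3 → ℝ) (y : Fin 8 → ℝ) :
    1 / ‖vA m ((C8 y).1 ^ 2) (C8 y).2.1‖ = lcA (cstM m) y := by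
  rw [vA_C8, nrm_eq]; rfl

theorem invB (m : Fin 3 → ℝ) (y : Fin 8 → ℝ) :
    1 / ‖vB m ((C8 y).1 ^ 2) (C8 y).2.1‖ = lcB (cstM m) y := by
  rw [vB_C8, nrm_eq]; rfl

theorem hE_C8 (m : Fin 3 → ℝ) (y : Fin 8 → ℝ) : hE m (C8 y) / 2 = lcH (cstM m) y := by
  have hν : ‖(C8 y).2.2.2‖ ^ 2 = y 6 * y 6 + y 7 * y 7 := by
    rw [← Complex.normSq_eq_norm_sq, Complex.normSq_apply]; rfl
  have h : hE m (C8 y) = (-1 - k2 m / 2 * ‖(C8 y).2.2.2‖ ^ 2 + m 0 * m 2 *
      (1 / ‖vA m ((C8 y).1 ^ 2) (C8 y).2.1‖) + m 1 * m 2 *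
      (1 / ‖vB m ((C8 y).1 ^ 2) (C8 y).2.1‖)) / k1 m := by
    unfold hE; ring
  rw [h, invA, invB, hν]
  show _ = lcA (cstM m) y * (m 0 * m 2 / (2 * k1 m)) + lcB (cstM m) y * (m 1 * m 2 / (2 * k1 m)) -
    1 * (1 / (2 * k1 m)) - (y 6 * y 6 + y 7 * y 7) * (1 / 3) * (3 * k2 m / (4 * k1 m))
  ring

theorem fP_re (m : Fin 3 → ℝ) (y : Fin 8 → ℝ) :
    (fP m ((C8 y).1 ^ 2) (C8 y).2.1).re = lcdx (cstM m) y := by
  unfold fP
  rw [Complex.re_ofReal_mul, Complex.sub_re, FF_re, FF_re, invA, invB, vA_C8, vB_C8]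
  show m 2 * (lcfbx (cstM m) y - lcfax (cstM m) y) = (lcfbx (cstM m) y - lcfax (cstM m) y) * m 2
  ring

theorem fP_im (m : Fin 3 → ℝ) (y : Fin 8 → ℝ) :
    (fP m ((C8 y).1 ^ 2) (C8 y).2.1).im = lcdy (cstM m) y := by
  unfold fP
  rw [Complex.im_ofReal_mul, Complex.sub_im, FF_im, FF_im, invA, invB, vA_C8, vB_C8]
  show m 2 * (lcfby (cstM m) y - lcfay (cstM m) y) = (lcfby (cstM m) y - lcfay (cstM m) y) * m 2
  ring

theorem gP_re (m : Fin 3 → ℝ) (y : Fin 8 → ℝ) :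
    (gP m ((C8 y).1 ^ 2) (C8 y).2.1).re = -(1 / 2 * (lcfax (cstM m) y *
      (2 * mT m * m 0 / (3 * (m 0 + m 1))) + lcfbx (cstM m) y *
      (2 * mT m * m 1 / (3 * (m 0 + m 1)))) * 3) := by
  unfold gP
  rw [neg_mul, Complex.neg_re, Complex.re_ofReal_mul, Complex.add_re, Complex.re_ofReal_mul,
    Complex.re_ofReal_mul, FF_re, FF_re, invA, invB, vA_C8, vB_C8]
  show -(mT m / (m 0 + m 1) * (m 0 * lcfax (cstM m) y + m 1 * lcfbx (cstM m) y)) = _
  generalize m 0 + m 1 = s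
  ring

theorem gP_im (m : Fin 3 → ℝ) (y : Fin 8 → ℝ) :
    (gP m ((C8 y).1 ^ 2) (C8 y).2.1).im = -(1 / 2 * (lcfay (cstM m) y *
      (2 * mT m * m 0 / (3 * (m 0 + m 1))) + lcfby (cstM m) y *
      (2 * mT m * m 1 / (3 * (m 0 + m 1)))) * 3) := by
  unfold gP
  rw [neg_mul, Complex.neg_im, Complex.im_ofReal_mul, Complex.add_im, Complex.im_ofReal_mul,
    Complex.im_ofReal_mul, FF_im, FF_im, invA, invB, vA_C8, vB_C8]
  show -(mT m / (m 0 + m 1) * (m 0 * lcfay (cstM m) y + m 1 * lcfby (cstM m) y)) = _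
  generalize m 0 + m 1 = s
  ring

theorem nsq_C8 (y : Fin 8 → ℝ) : ‖(C8 y).1‖ ^ 2 = lcr y := by
  rw [← Complex.normSq_eq_norm_sq, Complex.normSq_apply]; rfl

/-- BRIDGE -/
theorem bridge (m : Fin 3 → ℝ) (y : Fin 8 → ℝ) : LCV m (C8 y) = C8 (lcF (cstM m) y) := by
  have hr := nsq_C8 y
  refine Prod.ext rfl (Prod.ext ?_ (Prod.ext ?_ ?_))
  · show ((‖(C8 y).1‖ ^ 2 : ℝ) : ℂ) * (C8 y).2.2.2 = ⟨lcr y * y 6, lcr y * y 7⟩
    rw [hr]
    apply Complex.ext
    · rw [Complex.re_ofReal_mul]; rfl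
    · rw [Complex.im_ofReal_mul]; rfl
  · show ((hE m (C8 y) / 2 : ℝ) : ℂ) * (C8 y).1 + ((‖(C8 y).1‖ ^ 2 / 2 : ℝ) : ℂ) *
      (starRingEnd ℂ) (C8 y).1 * fP m ((C8 y).1 ^ 2) (C8 y).2.1 = ⟨lcF (cstM m) y 2,
        lcF (cstM m) y 3⟩
    rw [hr, hE_C8]
    apply Complex.ext
    · rw [Complex.add_re, Complex.re_ofReal_mul, mul_assoc, Complex.re_ofReal_mul, Complex.mul_re,
        fP_re, fP_im, Complex.conj_re, Complex.conj_im]
      show lcH (cstM m) y * y 0 + lcr y / 2 * (y 0 * lcdx (cstM m) y - -y 1 * lcdy (cstM m) y) =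
        lcH (cstM m) y * y 0 + lcr y * (1 / 2) * (y 0 * lcdx (cstM m) y + y 1 * lcdy (cstM m) y)
      ring
    · rw [Complex.add_im, Complex.im_ofReal_mul, mul_assoc, Complex.im_ofReal_mul, Complex.mul_im,
        fP_re, fP_im, Complex.conj_re, Complex.conj_im]
      show lcH (cstM m) y * y 1 + lcr y / 2 * (y 0 * lcdy (cstM m) y + -y 1 * lcdx (cstM m) y) =
        lcH (cstM m) y * y 1 + lcr y * (1 / 2) * (y 0 * lcdy (cstM m) y - y 1 * lcdx (cstM m) y)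
      ring
  · show ((‖(C8 y).1‖ ^ 2 : ℝ) : ℂ) * gP m ((C8 y).1 ^ 2) (C8 y).2.1 = ⟨lcF (cstM m) y 6,
        lcF (cstM m) y 7⟩
    rw [hr]
    apply Complex.ext
    · rw [Complex.re_ofReal_mul, gP_re]
      show _ = -(lcr y * (1 / 2) * (lcfax (cstM m) y * (2 * mT m * m 0 / (3 * (m 0 + m 1))) +
        lcfbx (cstM m) y * (2 * mT m * m 1 / (3 * (m 0 + m 1)))) * 3)
      ring
    · rw [Complex.im_ofReal_mul, gP_im]
      show _ = -(lcr y * (1 / 2) * (lcfay (cstM m) y * (2 * mT m * m 0 / (3 * (m 0 + m 1))) +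
        lcfby (cstM m) y * (2 * mT m * m 1 / (3 * (m 0 + m 1)))) * 3)
      ring

theorem lfree_of (m : Fin 3 → ℝ) (y : Fin 8 → ℝ) (h1 : lcOk (cstM m) y) (h2 : NoColl y) :
    LFree m (C8 y) := by
  refine ⟨?_, ?_, ?_⟩
  · intro h
    have h0 : y 0 = 0 := congrArg Complex.re h
    have h1' : y 1 = 0 := congrArg Complex.im h
    rcases h2 with h2 | h2
    · rw [h0, h1'] at h2; norm_num at h2
    · rw [h0, h1'] at h2; simp at h2
  · intro h
    rw [vA_C8] at h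
    have h0 : lcax (cstM m) y = 0 := congrArg Complex.re h
    have h1' : lcay (cstM m) y = 0 := congrArg Complex.im h
    have := h1.1
    unfold lca2 at this
    rw [h0, h1'] at this
    norm_num at this
  · intro h
    rw [vB_C8] at h
    have h0 : lcbx (cstM m) y = 0 := congrArg Complex.re h
    have h1' : lcby (cstM m) y = 0 := congrArg Complex.im h
    have := h1.2
    unfold lcb2 at this
    rw [h0, h1'] at this
    norm_num at this

theorem mkC_eq (a b : ℝ) : (⟨a, b⟩ : ℂ) = (a : ℂ) + (b : ℂ) * I := by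
  apply Complex.ext <;> simp

theorem cont_C8 : Continuous C8 := by
  unfold C8
  simp only [mkC_eq]
  fun_prop

theorem cont_R8 : Continuous R8 := by
  rw [continuous_pi_iff]
  intro i
  have hre := Complex.continuous_re
  have him := Complex.continuous_im
  fin_cases i
  · exact hre.comp continuous_fst
  · exact him.comp continuous_fst
  · exact hre.comp (continuous_fst.comp (continuous_snd.comp continuous_snd))
  · exact him.comp (continuous_fst.comp (continuous_snd.comp continuous_snd))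
  · exact hre.comp (continuous_fst.comp continuous_snd)
  · exact him.comp (continuous_fst.comp continuous_snd)
  · exact hre.comp (continuous_snd.comp (continuous_snd.comp continuous_snd))
  · exact him.comp (continuous_snd.comp (continuous_snd.comp continuous_snd))

theorem der_mk {f g : ℝ → ℝ} {f' g' : ℝ} {s : Set ℝ} {t : ℝ} (hf : HasDerivWithinAt f f' s t)
    (hg : HasDerivWithinAt g g' s t) :
    HasDerivWithinAt (fun t => (⟨f t, g t⟩ : ℂ)) ⟨f', g'⟩ s t := by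
  simp only [mkC_eq]
  exact hf.ofReal_comp.add (hg.ofReal_comp.mul_const I)

theorem der_C8 {y : ℝ → Fin 8 → ℝ} {y' : Fin 8 → ℝ} {s : Set ℝ} {t : ℝ}
    (h : HasDerivWithinAt y y' s t) : HasDerivWithinAt (fun t => C8 (y t)) (C8 y') s t := by
  rw [hasDerivWithinAt_pi] at h
  exact (der_mk (h 0) (h 1)).prodMk ((der_mk (h 4) (h 5)).prodMk
    ((der_mk (h 2) (h 3)).prodMk (der_mk (h 6) (h 7))))

/-- solutions in real coordinates give a Levi-Civita family -/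
theorem larc (hCD : ContDepStmt) (m : Fin 3 → ℝ) (S : ℝ) (hS : 0 < S) (X0 : (Fin 4 → ℝ) → JS)
    (hX0 : ContinuousOn X0 box4) (Q : (Fin 4 → ℝ) → (ℝ → Fin 8 → ℝ) → Prop)
    (h : ∀ ξ ∈ box4, ∃ y : ℝ → Fin 8 → ℝ, y 0 = R8 (X0 ξ) ∧
      (∀ t ∈ Icc 0 S, HasDerivWithinAt y (lcF (cstM m) (y t)) (Icc 0 S) t ∧
        lcOk (cstM m) (y t) ∧ NoColl (y t)) ∧ Q ξ y) :
    ∃ x, LArc m S x ∧ ∀ ξ ∈ box4, x ξ 0 = X0 ξ ∧ Q ξ (fun s => R8 (x ξ s)) := by
  choose! y hy0 hyd hyQ using h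
  have hc := hCD (Fin 4 → ℝ) box4 (lcF (cstM m)) (lcDom (cstM m)) (lcDom_open _) (lcF_smooth _) S
    hS.le y (fun ξ hξ t ht => ⟨(hyd ξ hξ t ht).2.1, (hyd ξ hξ t ht).1⟩)
    ((cont_R8.comp_continuousOn hX0).congr fun ξ hξ => hy0 ξ hξ)
  refine ⟨fun ξ s => C8 (y ξ s), ⟨hS, cont_C8.comp_continuousOn hc, ?_, ?_⟩, ?_⟩
  · intro ξ hξ s hs
    exact lfree_of m _ (hyd ξ hξ s hs).2.1 (hyd ξ hξ s hs).2.2
  · intro ξ hξ s hs
    have h1 := der_C8 (hyd ξ hξ s hs).1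
    rw [← bridge] at h1
    exact h1
  · intro ξ hξ
    refine ⟨?_, ?_⟩
    · show C8 (y ξ 0) = X0 ξ
      rw [hy0 ξ hξ, C8_R8]
    · simp only [R8_C8]
      exact hyQ ξ hξ

end

end Pool.Agent.HM
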