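import Pool.Agent.Helper49_HM.Dyn

/-!
# Statements: one link, the chain solution
-/

namespace Pool.Agent.HM

open Complex Set Topology

noncomputable section

/-- windows on which `gg` is continuous -/
def WinC (μ : Fin 3 → ℝ) : Set JS :=
  {X | Lev μ X ∧ ‖X.1‖ ≤ 2 ∧ 23 ≤ ‖X.2.1‖ ∧ |LL X| ≤ 0.051 ∧ |gg μ X - gref| ≤ 0.01 ∧
    |EO μ X| ≤ 1e-3}

/-- GG: continuity of the angle -/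
def GgStmt : Prop := ∃ ε : ℝ, 0 < ε ∧ ∀ μ, Near1 ε μ → ContinuousOn (gg μ) (WinC μ)

/-- the equations of one link: `F · · 0` with faces `ξ' 0`, `F · · 1` with faces `ξ 1`, `F · · 2`
with faces `ξ' 2`, `F · · 3` with faces `ξ 3` -/
structure Link (μ : Fin 3 → ℝ) (P P' : (Fin 4 → ℝ) → ℝ → JS) (θ θ' : (Fin 4 → ℝ) → ℝ → ℝ) (N : ℤ)
    (F : (Fin 4 → ℝ) → (Fin 4 → ℝ) → Fin 4 → ℝ) : Prop where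
  cont : ∀ j, ContinuousOn (fun p : (Fin 4 → ℝ) × (Fin 4 → ℝ) => F p.1 p.2 j) (box4 ×ˢ box4)
  f0 : ∀ ξ ∈ box4, ∀ ξ' ∈ box4, (ξ' 0 = -1 → F ξ ξ' 0 ≤ 0) ∧ (ξ' 0 = 1 → 0 ≤ F ξ ξ' 0)
  f1 : ∀ ξ ∈ box4, ∀ ξ' ∈ box4, (ξ 1 = -1 → F ξ ξ' 1 ≤ 0) ∧ (ξ 1 = 1 → 0 ≤ F ξ ξ' 1)
  f2 : ∀ ξ ∈ box4, ∀ ξ' ∈ box4, (ξ' 2 = -1 → F ξ ξ' 2 ≤ 0) ∧ (ξ' 2 = 1 → 0 ≤ F ξ ξ' 2)
  f3 : ∀ ξ ∈ box4, ∀ ξ' ∈ box4, (ξ 3 = -1 → F ξ ξ' 3 ≤ 0) ∧ (ξ 3 = 1 → 0 ≤ F ξ ξ' 3)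
  zero : ∀ ξ ∈ box4, ∀ ξ' ∈ box4, (∀ j, F ξ ξ' j = 0) → ∃ dur Q u, 0 < dur ∧ ‖u‖ = 1 ∧
    IsNArc μ dur Q ∧ Q 0 = P ξ 1 ∧ rotJ u (Q 1) = rev (P' (RX ξ') 1) ∧
    ZonePath (fun τ => zc μ (Q τ)) (zc μ (Q 0)) (zc μ (Q 1)) (θ ξ 1)
      (θ' (RX ξ') 1 + 2 * Real.pi * N)

/-- LINK: existence of the link equations for all large numbers of turns; `σ = 1`: from B to A,
`σ = -1`: from A to B -/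
def LinkStmt : Prop := FarStmt → SteqStmt → LiftStmt → GgStmt → ∃ ε : ℝ, 0 < ε ∧ ∀ μ, Near1 ε μ →
  ∀ dA dB PA PB θA θB, Near initA uAB sAB LA gA μ dA PA → Near initB uBA sBA LB gB μ dB PB →
    Fam (fun ξ τ => zc μ (PA ξ τ)) θA → Fam (fun ξ τ => zc μ (PB ξ τ)) θB →
    ∃ N₀ : ℕ, (∀ N : ℤ, (N₀ : ℤ) ≤ N → ∃ F, Link μ PB PA θB θA N F) ∧
      (∀ N : ℤ, (N₀ : ℤ) ≤ -N → ∃ F, Link μ PA PB θA θB N F)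

/-- M4: Poincaré–Miranda for the cyclic chain -/
def M4Stmt : Prop := FarStmt → SteqStmt → LiftStmt → GgStmt → LinkStmt → MirStmt

/-- SOL: the solution of a chain and its word -/
def SolStmt : Prop := ChainStmt → ConsStmt → EmbStmt → SwStmt → SymStmt → InitStmt → ArcStmt →
  BlockStmt → ∃ ε : ℝ, 0 < ε ∧ ∀ m, Near1 ε m →
  ∀ (dA dB : (Fin 3 → ℝ) → (Fin 4 → ℝ) → ℝ) (PA PB : (Fin 3 → ℝ) → (Fin 4 → ℝ) → ℝ → JS)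
    (θA θB : (Fin 3 → ℝ) → (Fin 4 → ℝ) → ℝ → ℝ),
  (∀ μ, (μ = lab m lz ∨ μ = lab m lw) → Near initA uAB sAB LA gA μ (dA μ) (PA μ) ∧
    Near initB uBA sBA LB gB μ (dB μ) (PB μ) ∧ (CoreData fun τ => zc μ (PB μ 0 τ)) ∧
    Lifts μ (PA μ) (PB μ) (θA μ) (θB μ)) →
  ∀ (k : ℕ) (N : ℕ → ℤ), 0 < k → ∀ ξ dur Q u, Chain m k N dA dB PA PB θA θB ξ dur Q u →
  ∃ q v : ℝ → Conf, IsSol m q v ∧ ∃ (T : ℝ) (U : ℂ), 0 < T ∧ ‖U‖ = 1 ∧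
    (∀ t i, q (t + T) i = U * q t i) ∧
    (∀ t, energy m (q t) (v t) = -1) ∧ (∀ t, angMom m (q t) (v t) = 0) ∧
    HasWord (fun t => (q (T * t) 2 - q (T * t) 0) / (q (T * t) 1 - q (T * t) 0)) k
      (fun j => N (2 * j) + N (2 * j + 1))

/-- FIN: final assembly -/
def FinStmt : Prop := QuotStmt → WordStmt → LiftStmt → InitStmt → SymStmt → ArcStmt →
  NearAStmt → NearBStmt → MirStmt →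
  (∃ ε : ℝ, 0 < ε ∧ ∀ m, Near1 ε m →
  ∀ (dA dB : (Fin 3 → ℝ) → (Fin 4 → ℝ) → ℝ) (PA PB : (Fin 3 → ℝ) → (Fin 4 → ℝ) → ℝ → JS)
    (θA θB : (Fin 3 → ℝ) → (Fin 4 → ℝ) → ℝ → ℝ),
  (∀ μ, (μ = lab m lz ∨ μ = lab m lw) → Near initA uAB sAB LA gA μ (dA μ) (PA μ) ∧
    Near initB uBA sBA LB gB μ (dB μ) (PB μ) ∧ (CoreData fun τ => zc μ (PB μ 0 τ)) ∧
    Lifts μ (PA μ) (PB μ) (θA μ) (θB μ)) →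
  ∀ (k : ℕ) (N : ℕ → ℤ), 0 < k → ∀ ξ dur Q u, Chain m k N dA dB PA PB θA θB ξ dur Q u →
  ∃ q v : ℝ → Conf, IsSol m q v ∧ ∃ (T : ℝ) (U : ℂ), 0 < T ∧ ‖U‖ = 1 ∧
    (∀ t i, q (t + T) i = U * q t i) ∧
    (∀ t, energy m (q t) (v t) = -1) ∧ (∀ t, angMom m (q t) (v t) = 0) ∧
    HasWord (fun t => (q (T * t) 2 - q (T * t) 0) / (q (T * t) 1 - q (T * t) 0)) k
      (fun j => N (2 * j) + N (2 * j + 1))) → Core1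

end

end Pool.Agent.HM
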