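import Pool.Agent.Helper49_HM.Iface

/-!
# Topology: statements
-/

namespace Pool.Agent.HM

open Complex Set Topology

noncomputable section

/-- the plane without `0` and `1` -/
def C01 : Set ℂ := {z | z ≠ 0 ∧ z ≠ 1}

/-- Reduction of free homotopies in `M/SO(2)` to the plane without `0` and `1`. -/
def QuotStmt : Prop := ∀ m : Fin 3 → ℝ, (∀ i, 0 < m i) →
  ∃ Z : C(RConf m, C01), (∀ q : ConfM m, (Z (cls q) : ℂ) = (q.1 2 - q.1 0) / (q.1 1 - q.1 0)) ∧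
    ∀ γ δ : C(AddCircle (1 : ℝ), RConf m),
      (Z.comp γ).Homotopic (Z.comp δ) → γ.Homotopic δ

/-- homotopy in `ℂ ∖ {0,1}` relative to the end points of paths parametrized by `[0,1]` -/
def HomR (f g : ℝ → ℂ) : Prop :=
  ∃ H : ℝ × ℝ → ℂ, ContinuousOn H (Icc 0 1 ×ˢ Icc 0 1) ∧
    (∀ s ∈ Icc (0 : ℝ) 1, ∀ t ∈ Icc (0 : ℝ) 1, H (s, t) ∈ C01) ∧
    (∀ t ∈ Icc (0 : ℝ) 1, H (0, t) = f t ∧ H (1, t) = g t) ∧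
    (∀ s ∈ Icc (0 : ℝ) 1, H (s, 0) = f 0 ∧ H (s, 1) = f 1)

/-- segment from `x` to `1/4`, `n` turns on the circle of radius `1/4` around `0`, segment from
`1/4` to `y` -/
def stdA (x y : ℝ) (n : ℤ) (t : ℝ) : ℂ :=
  if t ≤ 1 / 3 then ((x + 3 * t * (1 / 4 - x) : ℝ) : ℂ)
  else if t ≤ 2 / 3 then 1 / 4 * exp (2 * Real.pi * I * n * ((3 * t - 1 : ℝ) : ℂ))
  else ((1 / 4 + (3 * t - 2) * (y - 1 / 4) : ℝ) : ℂ)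

/-- the path `f` joins two points of `(0,1)` and is in the class of `n` turns around `0` -/
def ClassA (f : ℝ → ℂ) (n : ℤ) : Prop :=
  ∃ x ∈ Ioo (0 : ℝ) 1, ∃ y ∈ Ioo (0 : ℝ) 1, f 0 = x ∧ f 1 = y ∧ HomR f (stdA x y n)

/-- the same around `1` -/
def ClassB (f : ℝ → ℂ) (n : ℤ) : Prop := ClassA (fun t => 1 - f t) n

/-- the piece of `f` on `[a,b]`, parametrized by `[0,1]` -/
def sub (f : ℝ → ℂ) (a b : ℝ) (t : ℝ) : ℂ := f (a + (b - a) * t)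

/-- `f` (1-periodic) is a concatenation of `2k` pieces in the classes `n 0, n 1, ...`, alternately
around `0` and `1` -/
def HasWord (f : ℝ → ℂ) (k : ℕ) (n : ℕ → ℤ) : Prop :=
  ∃ t : ℕ → ℝ, t 0 = 0 ∧ t (2 * k) = 1 ∧ (∀ j < 2 * k, t j < t (j + 1)) ∧
    ∀ j < k, ClassA (sub f (t (2 * j)) (t (2 * j + 1))) (n (2 * j)) ∧
      ClassB (sub f (t (2 * j + 1)) (t (2 * j + 2))) (n (2 * j + 1))

/-- Every loop in `ℂ ∖ {0,1}` is freely homotopic to a product of powers of the two standard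
generators. -/
def WordStmt : Prop := ∀ γ : C(AddCircle (1 : ℝ), C01), ∃ k : ℕ, 0 < k ∧ ∃ n : ℕ → ℤ,
  ∀ δ : C(AddCircle (1 : ℝ), C01), HasWord (fun t : ℝ => (δ (t : AddCircle (1 : ℝ)) : ℂ)) k n →
    γ.Homotopic δ

/-- continuous argument on a compact convex set -/
def LiftStmt : Prop := ∀ (E : Type) [NormedAddCommGroup E] [NormedSpace ℝ E] (K : Set E),
  Convex ℝ K → IsCompact K →
  ∀ f : E → ℂ, ContinuousOn f K → (∀ p ∈ K, f p ≠ 0) →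
  ∀ p₀ ∈ K, ∀ θ₀ : ℝ, f p₀ = ‖f p₀‖ * exp (I * θ₀) →
    ∃ θ : E → ℝ, ContinuousOn θ K ∧ θ p₀ = θ₀ ∧
      ∀ p ∈ K, f p = ‖f p‖ * exp (I * θ p)

/-- a family of paths in `ℂ ∖ {0,1}` that end in the zone, with a continuous argument -/
structure Fam (h : (Fin 4 → ℝ) → ℝ → ℂ) (θ : (Fin 4 → ℝ) → ℝ → ℝ) : Prop where
  cont : ContinuousOn (fun p : (Fin 4 → ℝ) × ℝ => h p.1 p.2) (box4 ×ˢ Icc 0 1)
  mem : ∀ ξ ∈ box4, ∀ τ ∈ Icc (0 : ℝ) 1, h ξ τ ∈ C01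
  zone : ∀ ξ ∈ box4, Zone (h ξ 1)
  contT : ContinuousOn (fun p : (Fin 4 → ℝ) × ℝ => θ p.1 p.2) (box4 ×ˢ Icc 0 1)
  lift : ∀ ξ ∈ box4, ∀ τ ∈ Icc (0 : ℝ) 1, h ξ τ = ‖h ξ τ‖ * exp (I * θ ξ τ)

/-- a path in the zone from `x` (argument `a`) to `y` (argument `b`) -/
def ZonePath (g : ℝ → ℂ) (x y : ℂ) (a b : ℝ) : Prop :=
  g 0 = x ∧ g 1 = y ∧ (∀ τ ∈ Icc (0 : ℝ) 1, Zone (g τ)) ∧
    ∃ θ : ℝ → ℝ, ContinuousOn θ (Icc 0 1) ∧ θ 0 = a ∧ θ 1 = b ∧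
      ∀ τ ∈ Icc (0 : ℝ) 1, g τ = ‖g τ‖ * exp (I * θ τ)

/-- Class of a block: exchange passage (outgoing half), excursion, brake passage, excursion,
exchange passage (incoming half = reversed outgoing half). -/
def BlockStmt : Prop := ∀ (hA hB : (Fin 4 → ℝ) → ℝ → ℂ) (θA θB : (Fin 4 → ℝ) → ℝ → ℝ),
  Fam hA θA → Fam hB θB →
  (∀ ξ ∈ box4, ∃ x ∈ Ioo (0 : ℝ) 1, hB ξ 0 = x) → (∀ ξ ∈ box4, θB ξ 0 = 0) → CoreData (hB 0) →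
  (∀ ξ ∈ box4, hA (RX ξ) 0 = hA ξ 0 ∧ θA (RX ξ) 0 = θA ξ 0) →
  ∀ ξ₁ ∈ box4, ∀ ξ₂ ∈ box4, ∀ ξ₃ ∈ box4, ∀ (g₁ g₂ : ℝ → ℂ) (N₁ N₂ : ℤ),
  ZonePath g₁ (hB ξ₁ 1) (hA (RX ξ₂) 1) (θB ξ₁ 1) (θA (RX ξ₂) 1 + 2 * Real.pi * N₁) →
  ZonePath g₂ (hA ξ₂ 1) (hB ξ₃ 1) (θA ξ₂ 1) (θB ξ₃ 1 + 2 * Real.pi * N₂) →
  ∀ (f : ℝ → ℂ) (t : ℕ → ℝ), ContinuousOn f (Icc 0 1) → t 0 = 0 → t 6 = 1 →
    (∀ j < 6, t j < t (j + 1)) →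
    (∀ τ ∈ Icc (0 : ℝ) 1, f (t 1 * τ) = hB ξ₁ τ) →
    (∀ τ ∈ Icc (0 : ℝ) 1, sub f (t 1) (t 2) τ = g₁ τ) →
    (∀ τ ∈ Icc (0 : ℝ) 1, sub f (t 2) (t 3) τ = hA (RX ξ₂) (1 - τ)) →
    (∀ τ ∈ Icc (0 : ℝ) 1, sub f (t 3) (t 4) τ = hA ξ₂ τ) →
    (∀ τ ∈ Icc (0 : ℝ) 1, sub f (t 4) (t 5) τ = g₂ τ) →
    (∀ τ ∈ Icc (0 : ℝ) 1, sub f (t 5) (t 6) τ = hB ξ₃ (1 - τ)) →
    ClassA f (N₁ + N₂)

end

end Pool.Agent.HM
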